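import Pool.Agent.Lib.MP_d80832_gt.Mod.Stm

set_option autoImplicit false

/-!
# MP_d80832_gt : the Borel sets of the model are traces
-/

namespace Pool.Agent.HM

open Pool.Agent.Lib.MP_d80832_gt
open Pool.Agent.CR (V Nm nat natN cut setR Memf Eqf IsTransModelZFC)
open Pool.Agent.FW (Ev ev_fun)

private theorem bi_meas (F : ℕ → Ob) :
    MeasurableSet (⋃ n, {x : Pt | ∃ D : Ms, F n = Ob.ms D ∧ x ∈ D.1}) := by
  refine MeasurableSet.iUnion fun n => ?_
  by_cases h : ∃ D : Ms, F n = Ob.ms D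
  · obtain ⟨D, hD⟩ := h
    have e : {x : Pt | ∃ D : Ms, F n = Ob.ms D ∧ x ∈ D.1} = D.1 := by
      ext x
      constructor
      · rintro ⟨D', h1, h2⟩
        rw [hD] at h1
        have h3 : D = D' := by simpa using h1
        rw [h3]
        exact h2
      · exact fun hx => ⟨D, hD, hx⟩
    rw [e]
    exact D.2
  · have e : {x : Pt | ∃ D : Ms, F n = Ob.ms D ∧ x ∈ D.1} = ∅ := by
      ext x
      constructor
      · rintro ⟨D', h1, _⟩
        exact (h ⟨D', h1⟩).elim
      · exact fun hx => hx.elim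
    rw [e]
    exact MeasurableSet.empty

/-- the union of a sequence of objects -/
private def bi_un (F : ℕ → Ob) : Ms :=
  ⟨⋃ n, {x : Pt | ∃ D : Ms, F n = Ob.ms D ∧ x ∈ D.1}, bi_meas F⟩

theorem p_BI (ij : S_IJ) (zn : S_ZN) (fa : S_FA) (sq : S_SQ) : S_BI := by
  intro e he
  have hsq := Ev.all (π := pp) fun s : Bool => sq Ms Ob.ms (fun a b h => by simpa using h)
    (fun i => by simp) (ZN e s) (fun _ _ => True)
  have hio := Ev.all (π := pp) fun q : ℚ × ℚ => ev_fun (π := pp) fun _ : List Ob =>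
    Ob.ms ⟨e ⁻¹' Set.Ioo (q.1 : ℝ) q.2, he.cont.measurable measurableSet_Ioo⟩
  have hco := ev_fun (π := pp) fun l : List Ob => match l with
    | [.ms D] => Ob.ms ⟨D.1ᶜ, D.2.compl⟩
    | _ => .no
  have hun := ev_fun (π := pp) fun l : List Ob => match l with
    | [.sq F] => Ob.ms (bi_un F)
    | _ => .no
  refine ((zn e).and ((fa e).and (hsq.and (hio.and (hco.and hun))))).mono ?_
  rintro M G ⟨hz, hf, hq, h1, h2, h3⟩ s A hA
  refine hA {A | ∃ D, Ob.ms D ∈ M ∧ A = Zs e s M G D} (hf s) ?_ ?_ ?_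
  · intro a b
    refine ⟨_, h1 (a, b) [] (by simp), ?_⟩
    unfold Xs Zs
    exact (Set.image_inter_preimage _ _ _).symm
  · rintro _ ⟨D, hD, rfl⟩
    refine ⟨_, h2 [Ob.ms D] (by simpa using hD), ?_⟩
    unfold Xs Zs
    rw [← Set.image_sdiff he.inj]
    congr 1
    ext x
    simp only [Set.mem_sdiff, Set.mem_inter_iff, Set.mem_compl_iff]
    tauto
  · intro W hW hE
    obtain ⟨F, hF, hF'⟩ := hq s (seqA W) hW
    have key : ∀ n, ∃ D : Ms, F n = some D ∧ W n = Zs e s M G D := by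
      intro n
      cases hn : F n with
      | none =>
        obtain ⟨D, hD, hWD⟩ := hE n
        refine absurd ?_ ((hF' n).2 hn D hD trivial)
        rw [(hz s D hD).2]
        exact (ij.2.2.2.2.2.1 W n _).2 hWD.symm
      | some D =>
        obtain ⟨h4, _, h5⟩ := (hF' n).1 D hn
        rw [(hz s D h4).2] at h5
        exact ⟨D, rfl, ((ij.2.2.2.2.2.1 W n _).1 h5).symm⟩
    choose D hD hWD using key
    refine ⟨_, h3 [Ob.sq fun n => (F n).elim Ob.no Ob.ms] (by simpa using hF), ?_⟩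
    unfold Zs bi_un
    ext r
    simp only [Set.mem_iUnion, Set.mem_image, Set.mem_inter_iff, Set.mem_ofPred_eq]
    constructor
    · rintro ⟨n, hn⟩
      rw [hWD n] at hn
      obtain ⟨x, ⟨hx1, hx2⟩, rfl⟩ := hn
      exact ⟨x, ⟨hx1, n, D n, by rw [hD n]; rfl, hx2⟩, rfl⟩
    · rintro ⟨x, ⟨hx1, n, D', hD', hx2⟩, rfl⟩
      refine ⟨n, ?_⟩
      rw [hWD n]
      rw [hD n] at hD'
      have h4 : D n = D' := by simpa using hD'
      exact ⟨x, ⟨hx1, by rw [h4]; exact hx2⟩, rfl⟩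

end Pool.Agent.HM
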