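import Pool.Agent.Lib.MP_d80832_gt.Mod.Stm

set_option autoImplicit false

/-!
# MP_d80832_gt : the sets `Vs i b` are Borel in the model
-/

namespace Pool.Agent.HM

open Pool.Agent.Lib.MP_d80832_gt
open Pool.Agent.CR (V Nm nat natN cut setR Memf Eqf IsTransModelZFC)
open Pool.Agent.FW (Ev)

/-- open sets of reals are unions of sequences of rational intervals -/
private theorem bj_open {O : Set ℝ} (hO : IsOpen O) :
    ∃ a b : ℕ → ℚ, O = ⋃ k, Set.Ioo (a k : ℝ) (b k) := by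
  classical
  let S : Set (ℚ × ℚ) := {p | Set.Ioo (p.1 : ℝ) p.2 ⊆ O}
  have hne : S.Nonempty := ⟨(0, 0), by simp [S]⟩
  obtain ⟨f, hf⟩ := (Set.to_countable S).exists_eq_range hne
  refine ⟨fun k => (f k).1, fun k => (f k).2, ?_⟩
  ext x
  simp only [Set.mem_iUnion]
  constructor
  · intro hx
    obtain ⟨u, hu, hxu, huO⟩ :=
      Real.isTopologicalBasis_Ioo_rat.exists_subset_of_mem_open hx hO
    simp only [Set.mem_iUnion, Set.mem_singleton_iff] at hu
    obtain ⟨a, b, _, rfl⟩ := hu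
    have hS : (a, b) ∈ S := huO
    rw [hf] at hS
    obtain ⟨k, hk⟩ := hS
    refine ⟨k, ?_⟩
    rw [hk]
    exact hxu
  · rintro ⟨k, hk⟩
    have hS : f k ∈ S := by
      rw [hf]
      exact ⟨k, rfl⟩
    exact hS hk

/-- the set `Vs i b` is the preimage of an open set -/
private theorem bj_pre {e : Pt → ℝ} (he : Emb e) (i : ℕ) (b : Node) :
    ∃ O : Set ℝ, IsOpen O ∧ ∀ x, e x ∈ O ↔ Node.Anc (x i) b := by
  choose O hO hO' using he.sep i
  refine ⟨⋃ c, ⋃ _ : Node.Anc c b, O c, isOpen_iUnion fun c => isOpen_iUnion fun _ => hO c, ?_⟩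
  intro x
  simp only [Set.mem_iUnion, exists_prop]
  constructor
  · rintro ⟨c, hc, hx⟩
    rw [hO'] at hx
    rwa [hx]
  · intro h
    exact ⟨x i, h, (hO' _ x).2 rfl⟩

theorem p_BJ (sa : S_SA) : S_BJ := by
  intro e he
  have h1 : ∀ x : ℕ × Node, Ev pp (fun M G => ∀ s : Bool,
      BorelIn (pp.N M G) (Xs e s M G) (Zs e s M G (Vs x.1 x.2))) := by
    rintro ⟨i, b⟩
    obtain ⟨O, hO, hOb⟩ := bj_pre he i b
    obtain ⟨u, v, huv⟩ := bj_open hO
    let D : ℕ → Ms := fun k => ⟨e ⁻¹' Set.Ioo (u k : ℝ) (v k),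
      (isOpen_Ioo.preimage he.cont).measurableSet⟩
    refine ((FW.ev_fun (fun _ => Ob.m1 D)).and (sa e)).mono ?_
    rintro M G ⟨h2, h3⟩ s E _ hI _ hW
    have hD : Ob.m1 D ∈ M := h2 [] (by simp)
    have h4 := hW (fun k => Zs e s M G (D k)) ((h3 s).2 D hD) (by
      intro k
      have h5 : Zs e s M G (D k) = Xs e s M G ∩ Set.Ioo (u k : ℝ) (v k) := by
        ext y
        constructor
        · rintro ⟨x, ⟨hx1, hx2⟩, rfl⟩
          exact ⟨⟨x, hx1, rfl⟩, hx2⟩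
        · rintro ⟨⟨x, hx1, rfl⟩, hx2⟩
          exact ⟨x, ⟨hx1, hx2⟩, rfl⟩
      show Zs e s M G (D k) ∈ E
      rw [h5]
      exact hI (u k) (v k))
    have h6 : (⋃ k, Zs e s M G (D k)) = Zs e s M G (Vs i b) := by
      ext y
      simp only [Set.mem_iUnion]
      constructor
      · rintro ⟨k, x, ⟨hx1, hx2⟩, rfl⟩
        refine ⟨x, ⟨hx1, ?_⟩, rfl⟩
        have h7 : e x ∈ O := by
          rw [huv]
          exact Set.mem_iUnion.2 ⟨k, hx2⟩
        exact (hOb x).1 h7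
      · rintro ⟨x, ⟨hx1, hx2⟩, rfl⟩
        have h7 : e x ∈ O := (hOb x).2 hx2
        rw [huv] at h7
        obtain ⟨k, hk⟩ := Set.mem_iUnion.1 h7
        exact ⟨k, x, ⟨hx1, hk⟩, rfl⟩
    rw [← h6]
    exact h4
  exact (Ev.all h1).mono fun M G h s i b => h (i, b) s

end Pool.Agent.HM
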