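import Pool.Agent.Lib.MP_d80832_gt.Mod.Stm

set_option autoImplicit false

/-!
# MP_d80832_gt : sequences of countable Borel families of the model
-/

namespace Pool.Agent.HM

open Pool.Agent.Lib.MP_d80832_gt
open Pool.Agent.CR (V Nm nat natN cut setR Memf Eqf Eqf_mono)
open Pool.Agent.FW (Ev ev_fun ev_ne)

/-- the name of the family of the traces of the sequence `D` -/
def cs_RN (e : Pt → ℝ) (s : Bool) (D : ℕ → Ms) : Nm Cn :=
  bag (fun m : ℕ => ZN e s (D m)) (fun _ => Set.univ)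

/-- the names of the countable families of traces -/
theorem cs_fam (bg : S_BG) (zn : S_ZN) (e : Pt → ℝ) (s : Bool) : Ev pp (fun M G =>
    ∀ D : ℕ → Ms, Ob.m1 D ∈ M → cs_RN e s D ∈ pp.H M ∧
      pp.vl M G (cs_RN e s D) = famR (Set.range fun m => Zs e s M G (D m))) := by
  refine ((bg ℕ Ob.kk (fun a b h => by injection h) (fun l m => match l with
      | [.m1 D] => ZN e s (D m)
      | _ => Nm.emp) (fun _ _ => Set.univ)).and ((zn e).and
    ((Ev.all fun m : ℕ => ev_fun (π := pp) (fun l => match l with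
      | [.m1 D] => .ms (D m)
      | _ => .no)).and
    ((Ev.all fun m : ℕ => ev_fun (π := pp) (fun _ => Ob.kk m)).and ev_ne)))).mono ?_
  rintro M G ⟨h1, h2, h3, h4, p0, hp0⟩ D hD
  have hl : ∀ x ∈ [Ob.m1 D], x ∈ M := by simpa using hD
  obtain ⟨h5, -, h7⟩ := h1 [.m1 D] hl
  refine ⟨h5, ?_⟩
  apply ZFSet.ext
  intro z
  refine (h7 z).trans ?_
  unfold famR
  rw [ZFSet.mem_range]
  constructor
  · rintro ⟨m, _, _, rfl⟩
    exact ⟨⟨_, m, rfl⟩, ((h2 s (D m) (h3 m [.m1 D] hl)).2).symm⟩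
  · rintro ⟨⟨_, m, rfl⟩, rfl⟩
    exact ⟨m, h4 m [] (by simp), ⟨p0, hp0, Set.mem_univ _⟩,
      ((h2 s (D m) (h3 m [.m1 D] hl)).2).symm⟩

/-- the decision about the `n`-th term -/
def cs_R (e : Pt → ℝ) (s : Bool) (l : List Ob) (n : ℕ) (x : Ob) (p : Cn) : Prop :=
  ∃ (ν : Nm Cn) (D : ℕ → Ms), l = [.nm ν] ∧ x = .m1 D ∧ Eqf (UN e s ν n) (cs_RN e s D) p

theorem cs_one (ij : S_IJ) (bg : S_BG) (zn : S_ZN) (un : S_UN) (eq : S_EQ) (ge : S_GE)
    (cu : S_CU) (e : Pt → ℝ) (he : Emb e) (s : Bool) : Ev pp (fun M G =>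
    ∀ U : ℕ → Set (Set ℝ), seqF U ∈ pp.N M G → (∀ n, (U n).Nonempty) →
    (∀ n, CtblBorel (pp.N M G) (Xs e s M G) (U n)) →
    ∃ B : ℕ → ℕ → Ms, Ob.m2 B ∈ M ∧ ∀ n, U n = Set.range fun m => Zs e s M G (B n m)) := by
  classical
  refine (((un e).and (eq.and ((ge (cs_R e s) (by
      rintro l n x p q hq ⟨ν, D, h1, h2, h3⟩
      exact ⟨ν, D, h1, h2, Eqf_mono h3 hq⟩)).and (cu e he)))).and
    ((cs_fam bg zn e s).and
    ((Ev.all fun m : ℕ => ev_fun (π := pp) (fun l => match l with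
      | [.m1 D] => .ms (D m)
      | _ => .no)).and
    ((Ev.all fun m : ℕ => ev_fun (π := pp) (fun l => match l with
      | [.sq F] => F m
      | _ => .no)).and
    (ev_fun (π := pp) (fun l => match l with
      | [.sq F] => if h : ∃ B : ℕ → ℕ → Ms, ∀ n, F n = .m1 (B n) then .m2 h.choose else .no
      | _ => .no)))))).mono ?_
  rintro M G ⟨⟨h1, h2, h3, h4⟩, h5, h6, h7, h8⟩ U ⟨ν, hν, hvl⟩ hne hU
  have hcu := fun n => h4 s (U n) (hne n) (hU n)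
  have hUN : ∀ n, UN e s ν n ∈ pp.H M ∧ pp.vl M G (UN e s ν n) = famR (U n) := by
    intro n
    refine h1 s ν hν n U hvl ?_
    obtain ⟨D, hD, hUD⟩ := hcu n
    rw [hUD]
    rintro _ ⟨m, rfl⟩
    exact ⟨D m, h6 m [.m1 D] (by simpa using hD), rfl⟩
  obtain ⟨F, hF, p, hp, hR⟩ := h3 [.nm ν] (by simpa using (show Ob.nm ν ∈ M from hν)) (by
    intro n
    obtain ⟨D, hD, hUD⟩ := hcu n
    obtain ⟨hD1, hD2⟩ := h5 D hD
    obtain ⟨p, hp, hpe⟩ := (h2 _ (hUN n).1 _ hD1).1 (by rw [(hUN n).2, hD2, ← hUD])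
    exact ⟨.m1 D, p, hp, ν, D, rfl, rfl, hpe⟩)
  have hB : ∃ B : ℕ → ℕ → Ms, ∀ n, F n = .m1 (B n) := by
    have h9 : ∀ n, ∃ D : ℕ → Ms, F n = .m1 D := by
      intro n
      obtain ⟨_, D, _, h10, _⟩ := hR n
      exact ⟨D, h10⟩
    exact ⟨fun n => (h9 n).choose, fun n => (h9 n).choose_spec⟩
  have hm2 := h8 [.sq F] (by simpa using hF)
  simp only [dif_pos hB] at hm2
  refine ⟨hB.choose, hm2, fun n => ?_⟩
  have hBn := hB.choose_spec n
  obtain ⟨ν', D, h9, h10, h11⟩ := hR n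
  simp only [List.cons.injEq, Ob.nm.injEq, and_true] at h9
  subst h9
  have h12 : Ob.m1 D ∈ M := by
    rw [← h10]
    exact h7 n [.sq F] (by simpa using hF)
  rw [hBn] at h10
  simp only [Ob.m1.injEq] at h10
  rw [h10]
  obtain ⟨hD1, hD2⟩ := h5 D h12
  have h13 := (h2 _ (hUN n).1 _ hD1).2 ⟨p, hp, h11⟩
  rw [(hUN n).2, hD2] at h13
  exact ij.2.2.2.1 _ _ h13

theorem p_CS (ij : S_IJ) (bg : S_BG) (zn : S_ZN) (un : S_UN) (eq : S_EQ) (ge : S_GE)
    (cu : S_CU) : S_CS := fun e he =>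
  Ev.all fun s : Bool => cs_one ij bg zn un eq ge cu e he s

end Pool.Agent.HM
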