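import Pool.Agent.Lib.MP_d80832_gt.Mod.Stm

set_option autoImplicit false

/-!
# MP_d80832_gt : the countable Borel families of the model
-/

namespace Pool.Agent.HM

open Pool.Agent.Lib.MP_d80832_gt
open Pool.Agent.CR (V Nm nat natN cut setR Memf Eqf IsTransModelZFC)
open Pool.Agent.FW (Ev ev_fun)

private def cu_emp : Ms := ⟨∅, MeasurableSet.empty⟩

private def cu_get : Ob → Ms
  | .ms D => D
  | _ => cu_emp

private def cu_f1 : List Ob → Ob
  | [.sq f] => .m1 (fun n => cu_get (f n))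
  | _ => .no

open Classical in
private noncomputable def cu_f2 : List Ob → Ob
  | [.m1 D, .st A] => .m1 (fun n => if n ∈ A then D n else D (sInf A))
  | _ => .no

private def cu_f3 : List Ob → Ob := fun _ => .ms cu_emp

private def cu_a (e : Pt → ℝ) (s : Bool) : List Ob → ℕ → Nm Cn
  | [.m1 D] => fun n => ZN e s (D n)
  | _ => fun _ => Nm.emp

theorem p_CU (ij : S_IJ) (zn : S_ZN) (sq : S_SQ) (su : S_SU) (bi : S_BI) : S_CU := by
  classical
  intro e he
  refine Ev.all (ι := Bool) (C := fun s M G => ∀ U : Set (Set ℝ), U.Nonempty →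
    CtblBorel (pp.N M G) (Xs e s M G) U →
    ∃ D : ℕ → Ms, Ob.m1 D ∈ M ∧ U = Set.range fun m => Zs e s M G (D m)) ?_
  intro s
  refine ((sq Ms Ob.ms (fun D D' h => by simpa using h) (fun D h => by simp at h)
    (fun D => ZN e s D) (fun _ _ => True)).and ((su (cu_a e s)).and ((bi e he).and ((zn e).and
    ((ev_fun (π := pp) cu_f1).and ((ev_fun (π := pp) cu_f2).and
    (ev_fun (π := pp) cu_f3))))))).mono ?_
  rintro M G ⟨h1, h2, h3, h4, h5, h6, h7⟩ U hne ⟨hU, ⟨W, hW, hUW⟩, hB⟩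
  obtain ⟨F, hF, hF'⟩ := h1 _ hW
  obtain ⟨D', hD'⟩ : ∃ D' : ℕ → Ms, D' = fun n => cu_get ((F n).elim Ob.no Ob.ms) := ⟨_, rfl⟩
  have hsome : ∀ n D, F n = some D → D' n = D := by
    intro n D h
    rw [hD']
    simp only [h]
    rfl
  have hnone : ∀ n, F n = none → D' n = cu_emp := by
    intro n h
    rw [hD']
    simp only [h]
    rfl
  have hDM : Ob.m1 D' ∈ M := by
    have h8 := h5 [Ob.sq fun n => (F n).elim Ob.no Ob.ms] (by simpa using hF)
    rw [hD']
    exact h8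
  have hM : ∀ n, Ob.ms (D' n) ∈ M := by
    intro n
    cases hn : F n with
    | none =>
      rw [hnone n hn]
      exact h7 [] (by simp)
    | some D =>
      rw [hsome n D hn]
      exact ((hF' n).1 D hn).1
  obtain ⟨A, hA, hA'⟩ := h2 [Ob.m1 D'] (by simpa using hDM) _ hU
  have hval : ∀ n, n ∈ A ↔ Zs e s M G (D' n) ∈ U := by
    intro n
    refine (hA' n).2.trans ?_
    change pp.vl M G (ZN e s (D' n)) ∈ famR U ↔ _
    rw [(h4 s _ (hM n)).2]
    exact ij.2.2.2.2.1 U _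
  have hcov : ∀ B ∈ U, ∃ n ∈ A, B = Zs e s M G (D' n) := by
    intro B hBU
    obtain ⟨D, hD, rfl⟩ := h3 s B (hB B hBU)
    obtain ⟨n, hn⟩ := hUW hBU
    cases hFn : F n with
    | none =>
      refine absurd ?_ ((hF' n).2 hFn D hD trivial)
      rw [(h4 s D hD).2]
      exact (ij.2.2.2.2.2.1 W n _).2 hn.symm
    | some D1 =>
      obtain ⟨h8, _, h9⟩ := (hF' n).1 D1 hFn
      rw [(h4 s D1 h8).2] at h9
      have h10 := (ij.2.2.2.2.2.1 W n _).1 h9
      have h11 : Zs e s M G (D' n) = Zs e s M G D := by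
        rw [hsome n D1 hFn, h10, hn]
      exact ⟨n, (hval n).2 (by rw [h11]; exact hBU), h11.symm⟩
  obtain ⟨B0, hB0⟩ := hne
  obtain ⟨n0, hn0, _⟩ := hcov B0 hB0
  refine ⟨fun n => if n ∈ A then D' n else D' (sInf A),
    h6 [Ob.m1 D', Ob.st A] (by simp [hDM, hA]), ?_⟩
  ext B
  constructor
  · intro hBU
    obtain ⟨n, hn, rfl⟩ := hcov B hBU
    exact ⟨n, by simp only [hn, if_true]⟩
  · rintro ⟨n, rfl⟩
    by_cases hn : n ∈ A
    · simp only [hn, if_true]
      exact (hval n).1 hn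
    · simp only [hn, if_false]
      exact (hval _).1 (Nat.sInf_mem ⟨n0, hn0⟩)

end Pool.Agent.HM
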