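import Pool.Agent.Lib.MP_d80832_gt.Mod.Stm

set_option autoImplicit false

/-!
# MP_d80832_gt : equality at the generic point
-/

namespace Pool.Agent.HM

open Pool.Agent.FW (Ev ev_hull ev_genF)

theorem p_EQ : S_EQ :=
  (ev_hull.and ev_genF).mono fun _ _ h _ hσ _ hτ => CR.val_eq_iff h.1 h.2 hσ hτ

end Pool.Agent.HM
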