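import Pool.Agent.Lib.MP_d80832_gt.Mod.Stm

set_option autoImplicit false

/-!
# MP_d80832_gt : the family of all traces is in the model
-/

namespace Pool.Agent.HM

open Pool.Agent.Lib.MP_d80832_gt
open Pool.Agent.CR (V Nm setR)
open Pool.Agent.FW (Ev ev_ne)

private theorem fa_mem {U : Set (Set ℝ)} {z : V} : z ∈ famR U ↔ ∃ A ∈ U, setR A = z := by
  unfold famR
  rw [ZFSet.mem_range]
  constructor
  · rintro ⟨⟨A, hA⟩, h⟩
    exact ⟨A, hA, h⟩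
  · rintro ⟨A, hA, h⟩
    exact ⟨⟨A, hA⟩, h⟩

theorem p_FA (bg : S_BG) (zn : S_ZN) : S_FA := by
  intro e
  refine ((Ev.all (ι := Bool) fun s => bg Ms Ob.ms (fun D D' h => by simpa using h)
    (fun _ D => ZN e s D) (fun _ _ => Set.univ)).and ((zn e).and ev_ne)).mono ?_
  rintro M G ⟨h1, h2, p, hp⟩ s
  obtain ⟨h3, _, h4⟩ := h1 s [] (by simp)
  refine ⟨_, h3, ?_⟩
  apply ZFSet.ext
  intro z
  rw [fa_mem]
  refine (h4 z).trans ?_
  constructor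
  · rintro ⟨D, hD, _, rfl⟩
    exact ⟨_, ⟨D, hD, rfl⟩, (h2 s D hD).2.symm⟩
  · rintro ⟨_, ⟨D, hD, rfl⟩, rfl⟩
    exact ⟨D, hD, ⟨p, hp, Set.mem_univ _⟩, (h2 s D hD).2.symm⟩

end Pool.Agent.HM
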