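import Pool.Agent.Lib.MP_d80832_gt.Mod.Stm

set_option autoImplicit false

/-!
# MP_d80832_gt : the theorem
-/

namespace Pool.Agent.HM

open Pool.Agent.Lib.MP_d80832_gt
open Pool.Agent.CR (V Nm nat natN cut setR Memf Eqf IsTransModelZFC)
open Pool.Agent.FW (Ev)

theorem p_FI (em : S_EM) (sa : S_SA) (g1 : S_G1) (g3 : S_G3) (po : S_PO) (n1 : S_N1)
    (n2 : S_N2) (uc : S_UC) (inn : S_IN) : S_FI := by
  obtain ⟨e, he⟩ := em
  obtain ⟨M, G, hA, _, h1, h2, h3, h4, h5, h6, h7, h8, h9⟩ :=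
    ((FW.ev_cnt (π := pp)).and (FW.ev_zfc.and ((sa e).and (g1.and (g3.and ((po e he).and
      ((n1 e he).and ((n2 e he).and (uc e he))))))))).exists {Ob.bn (fun _ => default)}
      (Set.countable_singleton _)
      ⟨∅, ∅, fun i => Node.ball (H i), Set.countable_empty, subset_rfl, cond_ball,
        fun u hu => absurd hu (Set.notMem_empty u), fun u hu => absurd hu (Set.notMem_empty u),
        fun u hu => absurd hu (Set.notMem_empty u)⟩
  obtain ⟨t, ht, _⟩ := h5 (fun _ => default) (hA rfl)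
  have hY : (Xs e false M G).Nonempty := ⟨e t, t, ht, rfl⟩
  have hYX : Xs e false M G ⊆ Xs e true M G := Set.image_mono h4.1
  have hX : (Xs e true M G).Nonempty := hY.mono hYX
  obtain ⟨x1, x2, x3, x4, x5, x6⟩ := inn (pp.N M G) (Xs e true M G)
  obtain ⟨y1, y2, y3, y4, y5, y6⟩ := inn (pp.N M G) (Xs e false M G)
  refine ⟨pp.N M G, Set.Countable.image ?_ _, h2, Xs e true M G, Xs e false M G, (h3 true).1,
    (h3 false).1, hYX, h9, ?_, ?_⟩
  · refine h1.preimage_of_injOn fun x _ y _ h => ?_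
    have h : Ob.nm x = Ob.nm y := h
    simpa using h
  · have a1 := h6
    have a2 := x4 _ _ _ x1 a1
    have a3 := x4 _ _ _ (x2 hX) a2
    have a4 := x4 _ _ _ x3 a3
    exact ⟨a1, a2, a3, a4, x6 _ _ a2, x6 _ _ a3⟩
  · have b4 := h7
    have b3 : ¬ S1 (pp.N M G) (BTau (pp.N M G) (Xs e false M G))
        (BOmega (pp.N M G) (Xs e false M G)) := fun h => b4 (y4 _ _ _ y3 h)
    have b2 : ¬ S1 (pp.N M G) (BTau (pp.N M G) (Xs e false M G))
        (BTau (pp.N M G) (Xs e false M G)) := fun h => b3 (y4 _ _ _ (y2 hY) h)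
    have b1 : ¬ S1 (pp.N M G) (BTau (pp.N M G) (Xs e false M G))
        (BGamma (pp.N M G) (Xs e false M G)) := fun h => b2 (y4 _ _ _ y1 h)
    exact ⟨b1, b2, b3, b4, fun h => h8 (y5 _ _ _ (y2 hY) h), h8⟩

end Pool.Agent.HM
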