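import Pool.Agent.Lib.MP_d80832_gt.Mod.Stm

set_option autoImplicit false

/-!
# MP_d80832_gt : countable families of traces are in the model
-/

namespace Pool.Agent.HM

open Pool.Agent.Lib.MP_d80832_gt
open Pool.Agent.CR (V Nm nat natN cut setR Memf Eqf IsTransModelZFC)
open Pool.Agent.FW (Ev ev_fun)

private def fr_a (e : Pt → ℝ) (s : Bool) (l : List Ob) (n : ℕ) : Nm Cn :=
  match l with
  | [.m1 D] => ZN e s (D n)
  | _ => Nm.emp

private def fr_f (n : ℕ) (l : List Ob) : Ob :=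
  match l with
  | [.m1 D] => .ms (D n)
  | _ => .no

theorem p_FR (bg : S_BG) (zn : S_ZN) : S_FR := by
  intro e
  refine ((FW.Ev.all (ι := Bool) (fun s => bg ℕ Ob.kk (fun D D' h => by simpa using h)
    (fr_a e s) (fun _ _ => Set.univ))).and ((zn e).and
    ((FW.Ev.all (ι := ℕ) (fun n => ev_fun (π := pp) (fun _ => Ob.kk n))).and
    ((FW.Ev.all (ι := ℕ) (fun n => ev_fun (π := pp) (fr_f n))).and FW.ev_ne)))).mono ?_
  rintro M G ⟨h1, h2, h3, h4, h5⟩ s D hD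
  have hl : ∀ x ∈ [Ob.m1 D], x ∈ M := by
    intro x hx
    rw [List.mem_singleton] at hx
    rw [hx]
    exact hD
  obtain ⟨k1, _, k3⟩ := h1 s [Ob.m1 D] hl
  have hms : ∀ n, Ob.ms (D n) ∈ M := fun n => h4 n [Ob.m1 D] hl
  refine ⟨_, k1, ?_⟩
  change pp.vl M G _ = _
  apply ZFSet.ext
  intro z
  rw [k3 z]
  unfold famR
  rw [ZFSet.mem_range]
  constructor
  · rintro ⟨n, _, _, rfl⟩
    exact ⟨⟨_, ⟨n, rfl⟩⟩, ((h2 s (D n) (hms n)).2).symm⟩
  · rintro ⟨⟨A, ⟨n, rfl⟩⟩, rfl⟩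
    obtain ⟨p, hp⟩ := h5
    exact ⟨n, h3 n [] (by simp), ⟨p, hp, trivial⟩, ((h2 s (D n) (hms n)).2).symm⟩

end Pool.Agent.HM
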