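import Pool.Agent.Lib.MP_d80832_gt.Mod.Stm

set_option autoImplicit false

/-!
# MP_d80832_gt : the generic sets between the conditions (helper88)
-/

namespace Pool.Agent.HM

open Pool.Agent.Lib.MP_d80832_gt
open Pool.Agent.FW (Ev ev_rel ev_fun ev_dir ev_sub)

private lemma g1_cnt (s : Bool) (p : Cn) : (sel s p).Countable := by
  unfold sel
  split_ifs
  · exact p.cX
  · exact p.cX.mono p.sub

private lemma g1_enum (s : Bool) (p : Cn) (h : (sel s p).Nonempty) :
    ∃ f : ℕ → Pt, sel s p = Set.range f :=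
  (g1_cnt s p).exists_eq_range h

open Classical in
/-- the `n`-th point of `sel s p` -/
private noncomputable def g1_f (s : Bool) (p : Cn) (n : ℕ) : Ob :=
  if h : (sel s p).Nonempty then Ob.pt ((g1_enum s p h).choose n) else Ob.no

private lemma g1_pt : Ev pp (fun M G => ∀ (s : Bool), ∀ p ∈ G, ∀ x ∈ sel s p, Ob.pt x ∈ M) := by
  refine ((Ev.all (ι := Bool × ℕ) fun i => ev_fun (π := pp) (fun l => match l with
    | [.cn p] => g1_f i.1 p i.2
    | _ => .no)).and ev_sub).mono ?_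
  rintro M G ⟨h1, h2⟩ s p hp x hx
  have hp' : Ob.cn p ∈ M := h2 hp
  have hne : (sel s p).Nonempty := ⟨x, hx⟩
  have hspec := (g1_enum s p hne).choose_spec
  rw [hspec] at hx
  obtain ⟨n, hn⟩ := hx
  have h3 : g1_f s p n ∈ M := h1 (s, n) [.cn p] (by simpa using hp')
  have h4 : g1_f s p n = Ob.pt x := by
    unfold g1_f
    rw [dif_pos hne, hn]
  rwa [h4] at h3

theorem p_G1 : S_G1 := by
  refine (g1_pt.and ev_dir).mono ?_
  rintro M G ⟨h1, h2⟩
  refine ⟨?_, fun p hp => ⟨fun s x hx => ⟨h1 s p hp x hx, p, hp, hx⟩, ?_⟩⟩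
  · rintro x ⟨hx, p, hp, hxp⟩
    exact ⟨hx, p, hp, p.sub hxp⟩
  · rintro x ⟨_, q, hq, hxq⟩
    obtain ⟨r, _, hrp, hrq⟩ := h2 p hp q hq
    have hxr : x ∈ r.X := hrq.1 hxq
    by_cases hxp : x ∈ p.X
    · exact Or.inl hxp
    · exact Or.inr (hrp.2.2.2.1 x hxr hxp)

end Pool.Agent.HM
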