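import Pool.Agent.Lib.MP_d80832_gt.Mod.Stm

set_option autoImplicit false

/-!
# MP_d80832_gt : the chain property of the smaller generic set
-/

namespace Pool.Agent.HM

open Pool.Agent.Lib.MP_d80832_gt
open Pool.Agent.FW (Ev ev_dir)

theorem p_G2 : S_G2 := by
  refine (ev_dir (π := pp)).mono ?_
  rintro M G h
  refine ⟨?_, ?_⟩
  · rintro u ⟨_, p, hp, hu⟩ v ⟨_, q, hq, hv⟩ k
    obtain ⟨r, _, hr1, hr2⟩ := h p hp q hq
    have hu' : u ∈ p.Y := by simpa [sel] using hu
    have hv' : v ∈ q.Y := by simpa [sel] using hv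
    exact r.chain u (hr1.2.1 hu') v (hr2.2.1 hv') k
  · rintro y ⟨_, p, hp, hy⟩
    have hy' : y ∈ p.Y := by simpa [sel] using hy
    exact p.ball y hy'

end Pool.Agent.HM
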