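import Pool.Agent.Lib.MP_d80832_gt.Mod.Stm

set_option autoImplicit false

/-!
# MP_d80832_gt : piece G3, avoiding sequences of the model   (helper21)
-/

namespace Pool.Agent.HM

open Pool.Agent.Lib.MP_d80832_gt
open Pool.Agent.FW (Ev)

theorem p_G3 (st : S_ST) (g1 : S_G1) : S_G3 := by
  refine ((FW.ev_dense (π := pp) (fun l => {q : Cn | ∃ b, l.head? = some (Ob.bn b) ∧
    Av q b})).and g1).mono ?_
  rintro M G ⟨h1, h2⟩ b hb
  obtain ⟨q, hq, b', hb', t, ht, ht'⟩ := h1 [Ob.bn b] (by simpa using hb) (by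
    intro p
    obtain ⟨q, hq, _, _, hq', _⟩ := st p (fun _ _ => ⟨∅, MeasurableSet.empty⟩)
      (fun _ => ⟨∅, MeasurableSet.empty⟩) b (fun _ => 0)
    exact ⟨q, hq, b, rfl, hq'⟩)
  have e1 : b = b' := by simpa using hb'
  subst e1
  exact ⟨t, (h2.2 q hq).1 false ht, ht'⟩

end Pool.Agent.HM
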