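import Pool.Agent.Lib.MP_d80832_gt.Mod.Stm

set_option autoImplicit false

/-!
# MP_d80832_gt : incompatible pairs in the smaller generic set
-/

namespace Pool.Agent.HM

open Pool.Agent.Lib.MP_d80832_gt
open Pool.Agent.FW (Ev ev_dense)

theorem p_G4 (st : S_ST) (g1 : S_G1) : S_G4 := by
  refine ((ev_dense (π := pp) (fun l => match l with
      | [.nn g] => {q | Pa q g}
      | _ => ∅)).and g1).mono ?_
  rintro M G ⟨h1, _, h2⟩ g hg
  obtain ⟨q, hq, y, hy, z, hz, hyz⟩ := h1 [.nn g] (by simpa using hg) (fun p => by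
    obtain ⟨q, hq, _, _, _, h⟩ := st p (fun _ _ => ⟨∅, MeasurableSet.empty⟩)
      (fun _ => ⟨∅, MeasurableSet.empty⟩) (fun _ => default) g
    exact ⟨q, hq, h⟩)
  have h3 : sel false q ⊆ Gs false M G := (h2 q hq).1 false
  refine ⟨y, h3 (by simpa [sel] using hy), z, h3 (by simpa [sel] using hz), hyz⟩

end Pool.Agent.HM
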