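import Pool.Agent.Lib.MP_d80832_gt.Mod.Stm

set_option autoImplicit false

/-!
# MP_d80832_gt : the selection at the generic set
-/

namespace Pool.Agent.HM

open Pool.Agent.Lib.MP_d80832_gt
open Pool.Agent.FW (Ev)

private theorem g5_LT {X X' A : Set Pt} {B : ℕ → Ms} (h1 : X ⊆ X') (h2 : X' ⊆ A)
    (hp : ∀ j m, (∀ y ∈ A, y ∈ (B j).1 ↔ y ∈ (B m).1) ∨ ∃ y ∈ X, ¬ (y ∈ (B j).1 ↔ y ∈ (B m).1))
    (h : LT X' B) : LT X B := by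
  have hinj : Set.InjOn (fun S : Set Pt => X ∩ S) (tr X' B) := by
    rintro S ⟨j, rfl⟩ S' ⟨m, rfl⟩ he
    have he' : ∀ y ∈ X, (y ∈ (B j).1 ↔ y ∈ (B m).1) := by
      intro y hy
      have e1 : y ∈ X ∩ (X' ∩ (B j).1) ↔ y ∈ X ∩ (X' ∩ (B m).1) := by
        have : X ∩ (X' ∩ (B j).1) = X ∩ (X' ∩ (B m).1) := he
        rw [this]
      constructor
      · intro hb
        exact (e1.1 ⟨hy, h1 hy, hb⟩).2.2
      · intro hb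
        exact (e1.2 ⟨hy, h1 hy, hb⟩).2.2
    rcases hp j m with h3 | ⟨y, hy, h3⟩
    · ext y
      constructor
      · rintro ⟨hy, hb⟩
        exact ⟨hy, (h3 y (h2 hy)).1 hb⟩
      · rintro ⟨hy, hb⟩
        exact ⟨hy, (h3 y (h2 hy)).2 hb⟩
    · exact absurd (he' y hy) h3
  refine ⟨fun x hx => ?_, fun x hx y hy => ?_⟩
  · have h3 := (h.1 x (h1 hx)).image (hinj.mono (fun S hS => hS.1))
    refine h3.mono ?_
    rintro _ ⟨S, ⟨⟨m, rfl⟩, hxS⟩, rfl⟩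
    refine ⟨⟨m, ?_⟩, hx, hxS⟩
    ext y
    constructor
    · rintro ⟨a, b, c⟩; exact ⟨a, c⟩
    · rintro ⟨a, c⟩; exact ⟨a, h1 a, c⟩
  · have key : ∀ x ∈ X, ∀ y ∈ X, {S ∈ tr X' B | x ∈ S ∧ y ∉ S}.Finite →
        {S ∈ tr X B | x ∈ S ∧ y ∉ S}.Finite := by
      intro x hx y hy hf
      refine (hf.image (fun S : Set Pt => X ∩ S)).subset ?_
      rintro _ ⟨⟨m, rfl⟩, hxS, hyS⟩
      refine ⟨X' ∩ (B m).1, ⟨⟨m, rfl⟩, ⟨h1 hx, hxS.2⟩, fun hy' => hyS ⟨hy, hy'.2⟩⟩, ?_⟩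
      ext z
      constructor
      · rintro ⟨a, b, c⟩; exact ⟨a, c⟩
      · rintro ⟨a, c⟩; exact ⟨a, h1 a, c⟩
    rcases h.2 x (h1 hx) y (h1 hy) with h3 | h3
    · exact Or.inl (key x hx y hy h3)
    · exact Or.inr (key y hy x hx h3)

theorem p_G5 (kd : S_KD) (g1 : S_G1) : S_G5 := by
  refine (((FW.ev_dense (π := pp) (fun l => {q : Cn | ∃ B, l.head? = some (Ob.m2 B) ∧
    Ky q B})).and (FW.ev_rel (fun l x => ∃ (p : Cn) (B : ℕ → ℕ → Ms) (ψ : ℕ → ℕ),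
      l = [Ob.cn p, Ob.m2 B] ∧ x = Ob.nn ψ ∧
      ∀ y ∈ p.A, ∀ᶠ n in Filter.atTop, y ∈ (B n (ψ n)).1))).and (FW.ev_sub.and g1)).mono ?_
  rintro M G ⟨⟨h1, h2⟩, h3, h4⟩ B hB hLT
  obtain ⟨p, hp, B', hB', hK⟩ := h1 [Ob.m2 B] (by simpa using hB) (by
    intro p
    obtain ⟨q, hq, hq'⟩ := kd p B
    exact ⟨q, hq, B, rfl, hq'⟩)
  have e1 : B = B' := by simpa using hB'
  subst e1
  obtain ⟨h5, h6⟩ := h4.2 p hp
  have hX : p.X ⊆ Gs true M G := by simpa [sel] using h5 true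
  obtain ⟨ψ, hψ⟩ := hK.2 (fun n => g5_LT hX h6 (hK.1 n) (hLT n))
  obtain ⟨x, hx, p', B', ψ', e2, e3, e4⟩ := h2 [Ob.cn p, Ob.m2 B] (by
    intro x hx
    rcases List.mem_cons.1 hx with rfl | hx
    · exact h3 hp
    · rw [List.mem_singleton] at hx
      rw [hx]
      exact hB) ⟨Ob.nn ψ, p, B, ψ, rfl, rfl, hψ⟩
  have e5 : p = p' ∧ B = B' := by simpa using e2
  obtain ⟨rfl, rfl⟩ := e5
  subst e3
  exact ⟨ψ', hx, fun y hy => e4 y (h6 hy)⟩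

end Pool.Agent.HM
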