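import Pool.Agent.Lib.MP_d80832_gt.Mod.Stm

set_option autoImplicit false

/-!
# MP_d80832_gt : the codes are injective
-/

namespace Pool.Agent.HM

open Pool.Agent.Lib.MP_d80832_gt
open Pool.Agent.CR (V nat cut setR rat)

private theorem ij_mem_of_lt {m n : ℕ} (h : m < n) : nat m ∈ nat n := by
  induction n with
  | zero => exact absurd h (Nat.not_lt_zero _)
  | succ n ih =>
    change nat m ∈ insert (nat n) (nat n)
    rw [ZFSet.mem_insert_iff]
    rcases Nat.lt_succ_iff_lt_or_eq.1 h with h | h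
    · exact Or.inr (ih h)
    · exact Or.inl (by rw [h])

private theorem ij_nat_inj {m n : ℕ} (h : nat m = nat n) : m = n := by
  rcases lt_trichotomy m n with h1 | h1 | h1
  · have h2 := ij_mem_of_lt h1
    rw [h] at h2
    exact absurd h2 (ZFSet.mem_irrefl _)
  · exact h1
  · have h2 := ij_mem_of_lt h1
    rw [h] at h2
    exact absurd h2 (ZFSet.mem_irrefl _)

private theorem ij_nat_mem_cut {x : ℝ} {n : ℕ} : nat n ∈ cut x ↔ rat n < x := by
  rw [cut, ZFSet.mem_range]
  constructor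
  · rintro ⟨⟨m, hm⟩, h⟩
    have h1 : m = n := ij_nat_inj h
    rw [← h1]
    exact hm
  · intro h
    exact ⟨⟨n, h⟩, rfl⟩

private theorem ij_rat (q : ℚ) : ∃ n, rat n = q := by
  refine ⟨Nat.pair (Nat.pair q.num.toNat (-q.num).toNat) (q.den - 1), ?_⟩
  unfold rat
  simp only [Nat.unpair_pair]
  have h1 : ((q.den - 1 : ℕ) : ℝ) + 1 = q.den := by
    have : q.den - 1 + 1 = q.den := Nat.succ_pred_eq_of_pos q.den_pos
    exact_mod_cast this
  have h2 : ((q.num.toNat : ℕ) : ℝ) - ((-q.num).toNat : ℕ) = q.num := by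
    have : ((q.num.toNat : ℕ) : ℤ) - ((-q.num).toNat : ℕ) = q.num := by omega
    exact_mod_cast this
  rw [h1, h2]
  conv_rhs => rw [← Rat.num_div_den q]
  push_cast
  rfl

private theorem ij_lt {x y : ℝ} (h : x < y) : ∃ n, x < rat n ∧ rat n < y := by
  obtain ⟨q, h1, h2⟩ := exists_rat_btwn h
  obtain ⟨n, hn⟩ := ij_rat q
  exact ⟨n, by rw [hn]; exact h1, by rw [hn]; exact h2⟩

private theorem ij_cut_inj {x y : ℝ} (h : cut x = cut y) : x = y := by
  rcases lt_trichotomy x y with h1 | h1 | h1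
  · obtain ⟨n, h2, h3⟩ := ij_lt h1
    have h4 := ij_nat_mem_cut.2 h3
    rw [← h, ij_nat_mem_cut] at h4
    exact absurd h2 (not_lt.2 h4.le)
  · exact h1
  · obtain ⟨n, h2, h3⟩ := ij_lt h1
    have h4 := ij_nat_mem_cut.2 h3
    rw [h, ij_nat_mem_cut] at h4
    exact absurd h2 (not_lt.2 h4.le)

private theorem ij_mem_setR {A : Set ℝ} {x : ℝ} : cut x ∈ setR A ↔ x ∈ A := by
  rw [setR, ZFSet.mem_range]
  constructor
  · rintro ⟨⟨y, hy⟩, h⟩
    rw [← ij_cut_inj h]
    exact hy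
  · intro h
    exact ⟨⟨x, h⟩, rfl⟩

private theorem ij_setR_inj {A B : Set ℝ} (h : setR A = setR B) : A = B := by
  ext x
  rw [← ij_mem_setR, h, ij_mem_setR]

private theorem ij_mem_famR {U : Set (Set ℝ)} {A : Set ℝ} : setR A ∈ famR U ↔ A ∈ U := by
  rw [famR, ZFSet.mem_range]
  constructor
  · rintro ⟨⟨B, hB⟩, h⟩
    rw [← ij_setR_inj h]
    exact hB
  · intro h
    exact ⟨⟨A, h⟩, rfl⟩

theorem p_IJ : S_IJ := by
  refine ⟨fun m n h => ij_nat_inj h, fun x y h => ij_cut_inj h, fun A B h => ij_setR_inj h,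
    fun U U' h => ?_, fun U A => ij_mem_famR, fun W n A => ?_, fun U n A => ?_, fun s n x => ?_⟩
  · ext A
    rw [← ij_mem_famR, h, ij_mem_famR]
  · rw [seqA, ZFSet.mem_range]
    constructor
    · rintro ⟨m, h⟩
      obtain ⟨h1, h2⟩ := ZFSet.pair_injective h
      have h3 : m = n := ij_nat_inj h1
      subst h3
      exact (ij_setR_inj h2).symm
    · rintro rfl
      exact ⟨n, rfl⟩
  · rw [seqF, ZFSet.mem_range]
    constructor
    · rintro ⟨⟨⟨m, B⟩, hB⟩, h⟩
      obtain ⟨h1, h2⟩ := ZFSet.pair_injective h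
      have h3 : m = n := ij_nat_inj h1
      have h4 : B = A := ij_setR_inj h2
      subst h3
      subst h4
      exact hB
    · intro hA
      exact ⟨⟨(n, A), hA⟩, rfl⟩
  · rw [seqX, ZFSet.mem_range]
    constructor
    · rintro ⟨m, h⟩
      obtain ⟨h1, h2⟩ := ZFSet.pair_injective h
      have h3 : m = n := ij_nat_inj h1
      subst h3
      exact (ij_cut_inj h2).symm
    · rintro rfl
      exact ⟨n, rfl⟩

end Pool.Agent.HM
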