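import Pool.Agent.Lib.MP_d80832_gt.Mod.Stm

set_option autoImplicit false

/-!
# MP_d80832_gt : inclusions between the classes of covers
-/

namespace Pool.Agent.HM

open Pool.Agent.CR (V nat cut setR)

private lemma in_tau_min {X : Set ℝ} {U : Set (Set ℝ)}
    (htau : ∀ x ∈ X, ∀ y ∈ X, {A ∈ U | x ∈ A ∧ y ∉ A}.Finite ∨ {A ∈ U | y ∈ A ∧ x ∉ A}.Finite)
    (F : Set ℝ) (hF : F.Finite) (hFX : F ⊆ X) (hne : F.Nonempty) :
    ∃ x ∈ F, ∀ y ∈ F, {A ∈ U | x ∈ A ∧ y ∉ A}.Finite := by
  induction F, hF using Set.Finite.induction_on with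
  | empty => exact absurd hne Set.not_nonempty_empty
  | @insert z s _ _ ih =>
    have hzz : {A ∈ U | z ∈ A ∧ z ∉ A}.Finite := by
      have : {A ∈ U | z ∈ A ∧ z ∉ A} = ∅ := by
        ext A
        constructor
        · rintro ⟨_, h1, h2⟩; exact absurd h1 h2
        · intro h; exact absurd h (Set.notMem_empty A)
      rw [this]; exact Set.finite_empty
    rcases s.eq_empty_or_nonempty with rfl | hs
    · refine ⟨z, Set.mem_insert _ _, ?_⟩
      intro y hy
      rcases hy with rfl | hy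
      · exact hzz
      · exact absurd hy (Set.notMem_empty y)
    · obtain ⟨x, hx, hxs⟩ := ih ((Set.subset_insert _ _).trans hFX) hs
      rcases htau x (hFX (Set.mem_insert_of_mem _ hx)) z (hFX (Set.mem_insert _ _)) with h | h
      · refine ⟨x, Set.mem_insert_of_mem _ hx, ?_⟩
        intro y hy
        rcases hy with rfl | hy
        · exact h
        · exact hxs y hy
      · refine ⟨z, Set.mem_insert _ _, ?_⟩
        intro y hy
        rcases hy with rfl | hy
        · exact hzz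
        · refine (h.union (hxs y hy)).subset ?_
          rintro A ⟨hA, hzA, hyA⟩
          by_cases hxA : x ∈ A
          · exact Or.inr ⟨hA, hxA, hyA⟩
          · exact Or.inl ⟨hA, hzA, hxA⟩

theorem p_IN : S_IN := by
  intro N X
  refine ⟨?_, ?_, ?_, ?_, ?_, ?_⟩
  · rintro U ⟨⟨hcov, hinf, hfin⟩, hB⟩
    refine ⟨⟨hcov, ?_, ?_⟩, hB⟩
    · intro x hx hx'
      apply hinf
      refine (hx'.union (hfin x hx)).subset ?_
      intro A hA
      by_cases h : x ∈ A
      · exact Or.inl ⟨hA, h⟩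
      · exact Or.inr ⟨hA, h⟩
    · intro x _ y hy
      left
      exact (hfin y hy).subset fun A hA => ⟨hA.1, hA.2.2⟩
  · rintro ⟨x0, hx0⟩ U ⟨⟨hcov, hlarge, htau⟩, hB⟩
    refine ⟨⟨hcov, ?_⟩, hB⟩
    intro F hF hFX
    rcases F.eq_empty_or_nonempty with rfl | hFne
    · obtain ⟨A, hA, _⟩ := (hlarge x0 hx0).nonempty
      exact ⟨A, hA, Set.empty_subset _⟩
    · obtain ⟨x, hx, hxF⟩ := in_tau_min htau F hF hFX hFne
      have h1 : (⋃ y ∈ F, {A ∈ U | x ∈ A ∧ y ∉ A}).Finite := hF.biUnion fun y hy => hxF y hy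
      obtain ⟨A, hA, hA2⟩ := ((hlarge x (hFX hx)).sdiff h1).nonempty
      refine ⟨A, hA.1, ?_⟩
      intro y hy
      by_contra hyA
      apply hA2
      rw [Set.mem_iUnion₂]
      exact ⟨y, hy, hA.1, hA.2, hyA⟩
  · exact fun _ h => ⟨h.1.1, h.2⟩
  · intro A B B' h hS U hU hUA
    obtain ⟨W, hW, hWU, hWB⟩ := hS U hU hUA
    exact ⟨W, hW, hWU, h hWB⟩
  · intro A B B' h hS U hU hUA
    obtain ⟨F, hF, hFU, hFB⟩ := hS U hU hUA
    exact ⟨F, hF, hFU, h hFB⟩
  · intro A B hS U hU hUA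
    obtain ⟨W, hW, hWU, hWB⟩ := hS U hU hUA
    refine ⟨fun n => {W n}, ?_, fun n => ⟨Set.finite_singleton _, ?_⟩, ?_⟩
    · have h1 : seqF (fun n => ({W n} : Set (Set ℝ))) = seqA W := by
        apply ZFSet.ext
        intro z
        unfold seqF seqA
        rw [ZFSet.mem_range, ZFSet.mem_range]
        constructor
        · rintro ⟨⟨⟨n, A'⟩, hA'⟩, rfl⟩
          have h2 : A' = W n := hA'
          refine ⟨n, ?_⟩
          change _ = ZFSet.pair (nat n) (setR A')
          rw [h2]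
        · rintro ⟨n, rfl⟩
          exact ⟨⟨(n, W n), rfl⟩, rfl⟩
      rw [h1]
      exact hW
    · rw [Set.singleton_subset_iff]; exact hWU n
    · have : (⋃ n, ({W n} : Set (Set ℝ))) = Set.range W := by
        ext A'
        simp [eq_comm]
      rw [this]; exact hWB

end Pool.Agent.HM
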