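import Pool.Agent.Lib.MP_d80832_gt.Mod.Stm

set_option autoImplicit false

/-!
# MP_d80832_gt : deciding the selection
-/

namespace Pool.Agent.HM

open Pool.Agent.Lib.MP_d80832_gt
open Filter

private theorem kd_iter (sc : S_SC) (T : ℕ → Cn → Prop)
    (hT : ∀ (n : ℕ) (p : Cn), ∃ q ≤ p, T n q)
    (hm : ∀ (n : ℕ) (p q : Cn), q ≤ p → T n p → T n q) (p : Cn) :
    ∃ q ≤ p, ∀ n, T n q := by
  choose f hf1 hf2 using hT
  let P : ℕ → Cn := fun n => Nat.rec p (fun k r => f k r) n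
  have hP0 : P 0 = p := rfl
  have hP1 : ∀ n, P (n + 1) = f n (P n) := fun n => rfl
  obtain ⟨q, hq⟩ := sc P (fun n => by rw [hP1]; exact hf1 n (P n))
  refine ⟨q, ?_, fun n => ?_⟩
  · have := hq 0
    rw [hP0] at this
    exact this
  · refine hm n (P (n + 1)) q (hq (n + 1)) ?_
    rw [hP1]
    exact hf2 n (P n)

/-- the set of the first indices of the patterns -/
private def kdT (X : Set Pt) (B : ℕ → Ms) : Set ℕ :=
  {m | ∀ j < m, ∃ y ∈ X, ¬ (y ∈ (B j).1 ↔ y ∈ (B m).1)}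

open Classical in
/-- enumeration of the first indices -/
private noncomputable def kdf (X : Set Pt) (B : ℕ → Ms) : ℕ → ℕ :=
  if (kdT X B).Infinite then Nat.nth (fun m => m ∈ kdT X B) else id

private theorem kd_nonempty (st : S_ST) (p : Cn) (B : ℕ → Ms) :
    ∃ q ≤ p, Ln q B ∧ q.X.Nonempty := by
  obtain ⟨q, hq, -, h2, h3, -⟩ := st p (fun _ => B) B (fun _ => default) (fun _ => 0)
  obtain ⟨t, ht, -⟩ := h3
  exact ⟨q, hq, h2, ⟨t, q.sub ht⟩⟩

/-- the analysis of one sequence -/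
private theorem kd_one (mo : S_MO) (pi : S_PI) (q1 q2 : Cn) (hq : q2 ≤ q1) (B : ℕ → Ms)
    (hpat : Pat q1 B) (hln : Ln q2 (fun k => B (kdf q1.X B k))) (hne : q2.X.Nonempty)
    (hLT : LT q2.X B) :
    ∃ φ : ℕ → ℕ, ∀ y ∈ q2.A, ∀ᶠ k in atTop, y ∈ (B (kdf q1.X B (φ k))).1 := by
  have hX12 : q1.X ⊆ q2.X := hq.1
  have hX21 : q2.X ⊆ q1.A := fun x hx => (mo q1 q2 hq).1 (Or.inl hx)
  -- different first indices give different traces
  have hinj : ∀ m ∈ kdT q1.X B, ∀ m' ∈ kdT q1.X B, m < m' →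
      q2.X ∩ (B m).1 ≠ q2.X ∩ (B m').1 := by
    intro m _ m' hm' hlt heq
    obtain ⟨y, hy, hy2⟩ := hm' m hlt
    apply hy2
    have hyX : y ∈ q2.X := hX12 hy
    constructor
    · intro h
      have : y ∈ q2.X ∩ (B m).1 := ⟨hyX, h⟩
      rw [heq] at this
      exact this.2
    · intro h
      have : y ∈ q2.X ∩ (B m').1 := ⟨hyX, h⟩
      rw [← heq] at this
      exact this.2
  -- each trace has a first index
  have hsurj : ∀ m, ∃ m' ∈ kdT q1.X B, q2.X ∩ (B m').1 = q2.X ∩ (B m).1 := by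
    intro m
    classical
    have hex : ∃ k, q2.X ∩ (B k).1 = q2.X ∩ (B m).1 := ⟨m, rfl⟩
    refine ⟨Nat.find hex, ?_, Nat.find_spec hex⟩
    intro j hj
    rcases hpat j (Nat.find hex) with h | h
    · exfalso
      apply Nat.find_min hex hj
      rw [← Nat.find_spec hex]
      ext y
      constructor
      · rintro ⟨h1, h2⟩
        exact ⟨h1, (h y (hX21 h1)).1 h2⟩
      · rintro ⟨h1, h2⟩
        exact ⟨h1, (h y (hX21 h1)).2 h2⟩
    · exact h
  -- the set of first indices is infinite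
  have hinf : (kdT q1.X B).Infinite := by
    intro hfin
    obtain ⟨x, hx⟩ := hne
    have h1 := hLT.1 x hx
    apply h1
    refine (hfin.image (fun m => q2.X ∩ (B m).1)).subset ?_
    rintro A ⟨⟨m, rfl⟩, -⟩
    obtain ⟨m', hm', he⟩ := hsurj m
    exact ⟨m', hm', he⟩
  have hf : kdf q1.X B = Nat.nth (fun m => m ∈ kdT q1.X B) := by
    unfold kdf
    rw [if_pos hinf]
  have hfmem : ∀ k, kdf q1.X B k ∈ kdT q1.X B := by
    intro k
    rw [hf]
    exact Nat.nth_mem_of_infinite hinf k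
  have hfmono : StrictMono (kdf q1.X B) := by
    rw [hf]
    exact Nat.nth_strictMono hinf
  have hfsurj : ∀ m ∈ kdT q1.X B, ∃ k, kdf q1.X B k = m := by
    intro m hm
    have h1 : Set.range (Nat.nth (fun m => m ∈ kdT q1.X B)) = {m | m ∈ kdT q1.X B} :=
      Nat.range_nth_of_infinite hinf
    have h2 : m ∈ Set.range (Nat.nth (fun m => m ∈ kdT q1.X B)) := by
      rw [h1]; exact hm
    rw [hf]
    exact h2
  have hginj : Function.Injective (fun k => q2.X ∩ (B (kdf q1.X B k)).1) := by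
    intro k l hkl
    by_contra hne'
    rcases lt_or_gt_of_ne hne' with h | h
    · exact hinj _ (hfmem k) _ (hfmem l) (hfmono h) hkl
    · exact hinj _ (hfmem l) _ (hfmem k) (hfmono h) hkl.symm
  have hgsurj : ∀ m, ∃ k, q2.X ∩ (B (kdf q1.X B k)).1 = q2.X ∩ (B m).1 := by
    intro m
    obtain ⟨m', hm', he⟩ := hsurj m
    obtain ⟨k, rfl⟩ := hfsurj m' hm'
    exact ⟨k, he⟩
  -- the two conditions for pseudointersections
  have hlarge : ∀ x ∈ q2.X, ∃ᶠ k in atTop, x ∈ (B (kdf q1.X B k)).1 := by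
    intro x hx
    rw [Nat.frequently_atTop_iff_infinite]
    intro hfin
    apply hLT.1 x hx
    refine (hfin.image (fun k => q2.X ∩ (B (kdf q1.X B k)).1)).subset ?_
    rintro A ⟨⟨m, rfl⟩, hxA⟩
    obtain ⟨k, hk⟩ := hgsurj m
    refine ⟨k, ?_, hk⟩
    rw [← hk] at hxA
    exact hxA.2
  have haux : ∀ x ∈ q2.X, ∀ y ∈ q2.X, {A ∈ tr q2.X B | x ∈ A ∧ y ∉ A}.Finite →
      ∀ᶠ k in atTop, x ∈ (B (kdf q1.X B k)).1 → y ∈ (B (kdf q1.X B k)).1 := by
    intro x hx y hy hfin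
    have h1 : {k | x ∈ (B (kdf q1.X B k)).1 ∧ y ∉ (B (kdf q1.X B k)).1}.Finite := by
      apply Set.Finite.of_finite_image (f := fun k => q2.X ∩ (B (kdf q1.X B k)).1)
      · refine hfin.subset ?_
        rintro A ⟨k, ⟨h1, h2⟩, rfl⟩
        exact ⟨⟨_, rfl⟩, ⟨hx, h1⟩, fun h => h2 h.2⟩
      · exact hginj.injOn
    have h2 := h1.eventually_cofinite_notMem
    rw [Nat.cofinite_eq_atTop] at h2
    filter_upwards [h2] with k hk hxk
    by_contra hyk
    exact hk ⟨hxk, hyk⟩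
  have htau : ∀ x ∈ q2.X, ∀ y ∈ q2.X,
      (∀ᶠ k in atTop, x ∈ (B (kdf q1.X B k)).1 → y ∈ (B (kdf q1.X B k)).1) ∨
      ∀ᶠ k in atTop, y ∈ (B (kdf q1.X B k)).1 → x ∈ (B (kdf q1.X B k)).1 := by
    intro x hx y hy
    rcases hLT.2 x hx y hy with h | h
    · exact Or.inl (haux x hx y hy h)
    · exact Or.inr (haux y hy x hx h)
  obtain ⟨φ, hφ, hφ2⟩ := pi q2.X (fun k => B (kdf q1.X B k)) q2.cX htau hlarge
  refine ⟨φ, fun y hy => ?_⟩
  rcases hln with ⟨x, hx, z, hz, h1, h2⟩ | h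
  · exfalso
    rcases htau x hx z hz with h' | h'
    · exact h1 h'
    · exact h2 h'
  · obtain ⟨x, hx, h1⟩ := h y hy
    have h2 := hφ.tendsto_atTop.eventually h1
    filter_upwards [h2, hφ2 x hx] with k hk hk2
    exact hk hk2

theorem p_KD (sc : S_SC) (st : S_ST) (pd : S_PD) (mo : S_MO) (pi : S_PI) : S_KD := by
  intro p B
  obtain ⟨q1, hq1, hpat⟩ := kd_iter sc (fun n q => Pat q (B n)) (fun n p => pd p (B n))
    (fun n p q hqp h => (mo p q hqp).2.1 _ h) p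
  obtain ⟨q2, hq2, hln⟩ := kd_iter sc
    (fun n q => Ln q (fun k => B n (kdf q1.X (B n) k)) ∧ q.X.Nonempty)
    (fun n p => kd_nonempty st p _)
    (fun n p q hqp h => ⟨(mo p q hqp).2.2.2 _ h.1, h.2.mono hqp.1⟩) q1
  have hpat2 : ∀ n, Pat q2 (B n) := fun n => (mo q1 q2 hq2).2.1 _ (hpat n)
  by_cases hLT : ∀ n, LT q2.X (B n)
  · have h1 : ∀ n, ∃ φ : ℕ → ℕ, ∀ y ∈ q2.A,
        ∀ᶠ k in atTop, y ∈ (B n (kdf q1.X (B n) (φ k))).1 := fun n =>
      kd_one mo pi q1 q2 hq2 (B n) (hpat n) (hln n).1 (hln n).2 (hLT n)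
    choose φ hφ using h1
    obtain ⟨q, hq, hbd, -, -, -⟩ := st q2 (fun n k => B n (kdf q1.X (B n) (φ n k))) (B 0)
      (fun _ => default) (fun _ => 0)
    obtain ⟨h, hh⟩ := hbd
    refine ⟨q, le_trans hq (le_trans hq2 hq1), fun n => (mo q2 q hq).2.1 _ (hpat2 n),
      fun _ => ⟨fun n => kdf q1.X (B n) (φ n (h n)), fun y hy => ?_⟩⟩
    have hyA : y ∈ q2.A := (mo q2 q hq).1 hy
    filter_upwards [hh y hy] with n hn
    exact hn (hφ n y hyA) (h n) le_rfl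
  · exact ⟨q2, le_trans hq2 hq1, hpat2, fun h => absurd h hLT⟩

end Pool.Agent.HM
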