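import Pool.Agent.Lib.MP_d80832_gt.Mod.Stm

set_option autoImplicit false

/-!
# MP_d80832_gt : the negative half for `S1`
-/

namespace Pool.Agent.HM

open Pool.Agent.Lib.MP_d80832_gt
open Pool.Agent.CR (V Nm nat natN cut setR Memf Eqf IsTransModelZFC)
open Pool.Agent.FW (Ev)

open scoped Classical in
/-- the sequence of nodes read off from the decided selection -/
private noncomputable def n1_b (cd : ℕ → ℕ × Node) (f : ℕ → Ob) (j : ℕ) : Node :=
  if h : ∃ m, f (col j) = Ob.kk m ∧ (cd m).1 = j then (cd h.choose).2 else default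

private theorem n1_b_eq (cd : ℕ → ℕ × Node) (f : ℕ → Ob) (j m : ℕ) (h1 : f (col j) = Ob.kk m)
    (h2 : (cd m).1 = j) : n1_b cd f j = (cd m).2 := by
  have h : ∃ m, f (col j) = Ob.kk m ∧ (cd m).1 = j := ⟨m, h1, h2⟩
  unfold n1_b
  rw [dif_pos h]
  have h3 : Ob.kk m = Ob.kk h.choose := h1.symm.trans h.choose_spec.1
  have h4 : m = h.choose := by simpa using h3
  rw [← h4]

private noncomputable def n1_fn (cd : ℕ → ℕ × Node) : List Ob → Ob
  | [.sq f] => .bn (n1_b cd f)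
  | _ => .no

theorem p_N1 (ij : S_IJ) (zn : S_ZN) (sq : S_SQ) (g3 : S_G3) (bd : S_BD) : S_N1 := by
  intro e he
  obtain ⟨cd, hcd⟩ := exists_surjective_nat (ℕ × Node)
  have hsq := sq ℕ Ob.kk (fun m n h => by simpa using h) (fun i => by simp)
    (fun m => ZN e false (Vs (cd m).1 (cd m).2)) (fun k m => col (cd m).1 = k)
  have hkk : Ev pp (fun M _ => ∀ m : ℕ, Ob.kk m ∈ M) :=
    Ev.all fun m => (FW.ev_fun (π := pp) (fun _ => Ob.kk m)).mono fun M G h => h [] (by simp)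
  have hms : Ev pp (fun M _ => ∀ x : ℕ × Node, Ob.ms (Vs x.1 x.2) ∈ M) :=
    Ev.all fun x => (FW.ev_fun (π := pp) (fun _ => Ob.ms (Vs x.1 x.2))).mono
      fun M G h => h [] (by simp)
  have hbn : Ev pp (fun M _ => ∀ f : ℕ → Ob, Ob.sq f ∈ M → Ob.bn (n1_b cd f) ∈ M) :=
    (FW.ev_fun (π := pp) (n1_fn cd)).mono fun M G h f hf => h [Ob.sq f] (by simpa using hf)
  refine ((hsq.and (zn e)).and ((g3.and (bd e he)).and (hkk.and (hms.and hbn)))).mono ?_
  rintro M G ⟨⟨hsq, hzn⟩, ⟨hg3, hbd1, hbd2⟩, hkk, hms, hbn⟩ hS1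
  obtain ⟨-, -, -, -, -, ijA, -, -⟩ := ij
  obtain ⟨W, hW, hWb, hcov⟩ := hS1 _ hbd1 hbd2
  obtain ⟨F, hF, hFs⟩ := hsq _ hW
  obtain ⟨t, ht, htb⟩ := hg3 _ (hbn _ hF)
  have hval : ∀ m, pp.vl M G (ZN e false (Vs (cd m).1 (cd m).2)) =
      setR (Zs e false M G (Vs (cd m).1 (cd m).2)) := fun m => (hzn false _ (hms (cd m))).2
  have hkey : ∀ k, ∃ m, F k = some m ∧ col (cd m).1 = k ∧
      W k = Zs e false M G (Vs (cd m).1 (cd m).2) := by
    intro k
    obtain ⟨i, b, hi, -, hWk⟩ := hWb k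
    obtain ⟨m, hm⟩ := hcd (i, b)
    cases hFk : F k with
    | none =>
      exfalso
      refine (hFs k).2 hFk m (hkk m) ?_ ?_
      · rw [hm]
        exact hi
      · rw [hval m, ijA, hm, hWk]
    | some m' =>
      obtain ⟨-, h2, h3⟩ := (hFs k).1 m' hFk
      rw [hval m', ijA] at h3
      exact ⟨m', rfl, h2, h3.symm⟩
  have hmem : e t ∈ ⋃₀ Set.range W := by
    rw [hcov.1.1]
    exact ⟨t, ht, rfl⟩
  obtain ⟨_, ⟨k, rfl⟩, hk⟩ := hmem
  obtain ⟨m, hFk, hcol, hWk⟩ := hkey k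
  rw [hWk] at hk
  obtain ⟨x, ⟨-, hx⟩, hxt⟩ := hk
  obtain rfl := he.inj hxt
  have hb : n1_b cd (fun n => (F n).elim Ob.no Ob.kk) (cd m).1 = (cd m).2 := by
    refine n1_b_eq cd _ _ m ?_ rfl
    rw [hcol]
    simp [hFk]
  apply htb (cd m).1
  rw [hb]
  exact hx

end Pool.Agent.HM
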