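import Pool.Agent.Lib.MP_d80832_gt.Mod.Stm

set_option autoImplicit false

/-!
# MP_d80832_gt : the negative half for the finite selections
-/

namespace Pool.Agent.HM

open Pool.Agent.Lib.MP_d80832_gt
open Pool.Agent.CR (V Nm nat natN cut setR Memf Eqf IsTransModelZFC)
open Pool.Agent.FW (Ev)

/-- the trace with the number `m` -/
private def n2_W (cd : ℕ → ℕ × Node) (m : ℕ) : Ms := Vs (cd m).1 (cd m).2

/-- the names of the coded traces -/
private def n2_a (e : Pt → ℝ) (cd : ℕ → ℕ × Node) (_l : List Ob) (m : ℕ) : Nm Cn :=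
  ZN e false (n2_W cd m)

/-- the conditions which put `m` into the set -/
private def n2_D (l : List Ob) (m : ℕ) : Set Cn :=
  match l with
  | [.st T] => {_p | m ∈ T}
  | _ => ∅

/-- the name of the family coded by `T` -/
private def n2_T (e : Pt → ℝ) (cd : ℕ → ℕ × Node) (T : Set ℕ) : Nm Cn :=
  bag (n2_a e cd [.st T]) (n2_D [.st T])

/-- the relation to be decided -/
private def n2_R (e : Pt → ℝ) (cd : ℕ → ℕ × Node) (l : List Ob) (k : ℕ) (x : Ob) (p : Cn) : Prop :=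
  ∃ φ : Nm Cn, l = [.nm φ] ∧ ∃ T : Set ℕ, x = .st T ∧ T.Finite ∧ (∀ m ∈ T, col (cd m).1 = k) ∧
    Eqf (UN e false φ k) (n2_T e cd T) p

open Classical in
/-- the bound computed from the sequence of sets -/
private noncomputable def n2_g (cd : ℕ → ℕ × Node) (F : ℕ → Ob) (k : ℕ) : ℕ :=
  if h : ∃ g : ℕ, ∃ T, F k = Ob.st T ∧ ∀ m ∈ T, (cd m).1 < g then h.choose else 0

private theorem n2_g_spec (cd : ℕ → ℕ × Node) (F : ℕ → Ob) (k : ℕ) (T : Set ℕ) (hT : F k = Ob.st T)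
    (hf : T.Finite) : ∀ m ∈ T, (cd m).1 < n2_g cd F k := by
  classical
  have h : ∃ g : ℕ, ∃ T, F k = Ob.st T ∧ ∀ m ∈ T, (cd m).1 < g := by
    obtain ⟨b, hb⟩ := (hf.image fun m => (cd m).1).bddAbove
    exact ⟨b + 1, T, hT, fun m hm => Nat.lt_succ_of_le (hb ⟨m, hm, rfl⟩)⟩
  have h1 : n2_g cd F k = h.choose := by
    unfold n2_g
    rw [dif_pos h]
  rw [h1]
  obtain ⟨T', h2, h3⟩ := h.choose_spec
  rw [hT] at h2
  have h4 : T = T' := by simpa using h2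
  rw [h4]
  exact h3

theorem p_N2 (ij : S_IJ) (bg : S_BG) (zn : S_ZN) (un : S_UN) (eq : S_EQ) (ge : S_GE) (g4 : S_G4)
    (bd : S_BD) : S_N2 := by
  classical
  intro e he
  obtain ⟨cd, hcd⟩ : ∃ cd : ℕ → ℕ × Node, Function.Surjective cd :=
    exists_surjective_nat (ℕ × Node)
  have hkk : Function.Injective Ob.kk := fun a b h => by simpa using h
  refine (((bg ℕ Ob.kk hkk (n2_a e cd) n2_D).and ((zn e).and ((un e).and eq))).and
    (((ge (n2_R e cd) (by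
      rintro l n x p q hq ⟨φ, rfl, T, rfl, h1, h2, h3⟩
      exact ⟨φ, rfl, T, rfl, h1, h2, CR.Eqf_mono h3 hq⟩)).and (g4.and (bd e he))).and
    (((Ev.all (ι := Finset ℕ) fun T => FW.ev_fun (π := pp) (fun _ => Ob.st (T : Set ℕ))).and
      (Ev.all (ι := ℕ) fun m => FW.ev_fun (π := pp) (fun _ => Ob.kk m))).and
    ((Ev.all (ι := ℕ) fun m => FW.ev_fun (π := pp) (fun _ => Ob.ms (n2_W cd m))).and
      ((FW.ev_fun (π := pp) (fun l => match l with
        | [.sq F] => .nn (n2_g cd F)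
        | _ => .no)).and FW.ev_ne))))).mono ?_
  rintro M G ⟨⟨hbg, hzn, hun, heq⟩, ⟨hge, hg4, hbd1, hbd2⟩, ⟨hst, hkkM⟩, hms, hnn, p0, hp0⟩ hS
  obtain ⟨F, hFN, hF, hFom⟩ := hS (bad e M G) hbd1 hbd2
  obtain ⟨φ, hφ, hφF⟩ := hFN
  have hφF' : pp.vl M G φ = seqF F := hφF
  have hφM : Ob.nm φ ∈ M := hφ
  have hstM : ∀ T : Set ℕ, T.Finite → Ob.st T ∈ M := by
    intro T hT
    have h := hst hT.toFinset [] (by simp)
    rwa [Set.Finite.coe_toFinset] at h
  have hmsM : ∀ m, Ob.ms (n2_W cd m) ∈ M := fun m => hms m [] (by simp)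
  -- the value of the name `n2_T`
  have hT : ∀ T : Set ℕ, Ob.st T ∈ M → n2_T e cd T ∈ pp.H M ∧
      pp.vl M G (n2_T e cd T) = famR {A | ∃ m ∈ T, A = Zs e false M G (n2_W cd m)} := by
    intro T hTM
    obtain ⟨h1, _, h3⟩ := hbg [.st T] (by simpa using hTM)
    refine ⟨h1, ?_⟩
    apply ZFSet.ext
    intro z
    refine (h3 z).trans ?_
    unfold famR
    rw [ZFSet.mem_range]
    constructor
    · rintro ⟨m, _, ⟨p, _, hp⟩, rfl⟩
      have hm : m ∈ T := hp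
      exact ⟨⟨_, m, hm, rfl⟩, ((hzn false _ (hmsM m)).2).symm⟩
    · rintro ⟨⟨_, m, hm, rfl⟩, rfl⟩
      exact ⟨m, hkkM m [] (by simp), ⟨p0, hp0, hm⟩, ((hzn false _ (hmsM m)).2).symm⟩
  -- the names of the terms
  have hU : ∀ k, UN e false φ k ∈ pp.H M ∧ pp.vl M G (UN e false φ k) = famR (F k) := by
    intro k
    refine hun false φ hφ k F hφF' ?_
    intro A hA
    obtain ⟨i, b, _, _, rfl⟩ := (hF k).2 hA
    obtain ⟨m, hm⟩ := hcd (i, b)
    refine ⟨Vs i b, ?_, rfl⟩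
    have h := hmsM m
    unfold n2_W at h
    rwa [hm] at h
  -- the choices
  have hR : ∀ k, ∃ x, ∃ p ∈ G, n2_R e cd [.nm φ] k x p := by
    intro k
    obtain ⟨T', hT', hTF, hTi⟩ : ∃ T' : Set ℕ, (∀ m ∈ T', col (cd m).1 = k) ∧ T'.Finite ∧
        (fun m => Zs e false M G (n2_W cd m)) '' T' = F k := by
      have h1 : ∀ A ∈ F k, ∃ m, col (cd m).1 = k ∧ Zs e false M G (n2_W cd m) = A := by
        intro A hA
        obtain ⟨i, b, hi, _, rfl⟩ := (hF k).2 hA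
        obtain ⟨m, hm⟩ := hcd (i, b)
        refine ⟨m, ?_, ?_⟩
        · rw [hm]
          exact hi
        · unfold n2_W
          rw [hm]
      choose! f hf1 hf2 using h1
      refine ⟨f '' F k, ?_, (hF k).1.image f, ?_⟩
      · rintro _ ⟨A, hA, rfl⟩
        exact hf1 A hA
      · rw [Set.image_image]
        ext A
        constructor
        · rintro ⟨A', hA', rfl⟩
          have h2 := hf2 A' hA'
          show Zs e false M G (n2_W cd (f A')) ∈ F k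
          rwa [h2]
        · intro hA
          exact ⟨A, hA, hf2 A hA⟩
    have h1 : {A | ∃ m ∈ T', A = Zs e false M G (n2_W cd m)} = F k := by
      rw [← hTi]
      ext A
      constructor
      · rintro ⟨m, hm, rfl⟩
        exact ⟨m, hm, rfl⟩
      · rintro ⟨m, hm, rfl⟩
        exact ⟨m, hm, rfl⟩
    obtain ⟨h2, h3⟩ := hT T' (hstM T' hTF)
    rw [h1] at h3
    obtain ⟨p, hp, hpe⟩ := (heq _ (hU k).1 _ h2).1 ((hU k).2.trans h3.symm)
    exact ⟨.st T', p, hp, φ, rfl, T', rfl, hTF, hT', hpe⟩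
  obtain ⟨F', hF'M, p, hp, hF'⟩ := hge [.nm φ] (by simpa using hφM) hR
  obtain ⟨y, hy, z, hz, hyz⟩ := hg4 (n2_g cd F') (hnn [.sq F'] (by simpa using hF'M))
  obtain ⟨A, hA, hsub⟩ := hFom.1.2 {e y, e z} (Set.toFinite _) (by
    intro x hx
    rcases hx with rfl | rfl
    · exact ⟨y, hy, rfl⟩
    · exact ⟨z, hz, rfl⟩)
  obtain ⟨k, hk⟩ := Set.mem_iUnion.1 hA
  obtain ⟨φ', hφ', T, hTk, hTf, hTc, hTe⟩ := hF' k
  have hφ'' : φ' = φ := by simpa using hφ'.symm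
  subst hφ''
  obtain ⟨h2, h3⟩ := hT T (hstM T hTf)
  have h4 := (heq _ (hU k).1 _ h2).2 ⟨p, hp, hTe⟩
  rw [(hU k).2, h3] at h4
  have h5 := ij.2.2.2.1 _ _ h4
  rw [h5] at hk
  obtain ⟨m, hm, rfl⟩ := hk
  have hmem : ∀ u ∈ Gs false M G, e u ∈ Zs e false M G (n2_W cd m) →
      Node.Anc (u (cd m).1) (cd m).2 := by
    rintro u _ ⟨v, ⟨_, hv⟩, hvu⟩
    rw [← he.inj hvu]
    exact hv
  refine hyz (cd m).1 ?_ (cd m).2 ⟨hmem y hy (hsub (by simp)), hmem z hz (hsub (by simp))⟩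
  rw [hTc m hm]
  exact n2_g_spec cd F' k T hTk hTf m hm

end Pool.Agent.HM
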