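import Pool.Agent.Lib.MP_d80832_gt.Mod.Stm

set_option autoImplicit false

namespace Pool.Agent.HM

open Pool.Agent.Lib.MP_d80832_gt

/-- The pair `(j, m)` is decided. -/
private def pdDec (p : Cn) (B : ℕ → Ms) (j m : ℕ) : Prop :=
  (∀ y ∈ p.A, y ∈ (B j).1 ↔ y ∈ (B m).1) ∨ ∃ y ∈ p.X, ¬ (y ∈ (B j).1 ↔ y ∈ (B m).1)

private lemma pd_one (p : Cn) (B : ℕ → Ms) (j m : ℕ) : ∃ q ≤ p, pdDec q B j m := by
  by_cases h : ∀ y ∈ p.A, y ∈ (B j).1 ↔ y ∈ (B m).1
  · exact ⟨p, le_refl _, Or.inl h⟩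
  · push Not at h
    obtain ⟨y, hy, h1⟩ := h
    have h2 : ¬ (y ∈ (B j).1 ↔ y ∈ (B m).1) := by tauto
    by_cases hyX : y ∈ p.X
    · exact ⟨p, le_refl _, Or.inr ⟨y, hyX, h2⟩⟩
    · have hys : y ∈ star p.C := by
        rcases hy with hy | hy
        · exact absurd hy hyX
        · exact hy
      refine ⟨⟨insert y p.X, p.Y, p.C, p.cX.insert y, p.sub.trans (Set.subset_insert _ _), p.cC,
        p.chain, p.below, p.ball⟩, ⟨Set.subset_insert _ _, subset_rfl, Le.refl _, ?_, ?_⟩,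
        Or.inr ⟨y, Set.mem_insert _ _, h2⟩⟩
      · intro x hx hx'
        rcases hx with rfl | hx
        · exact hys
        · exact absurd hx hx'
      · intro x hx hx'
        exact absurd hx hx'

theorem p_PD (sc : S_SC) (mo : S_MO) : S_PD := by
  intro p B
  choose f hf1 hf2 using fun q : Cn => fun k : ℕ =>
    pd_one q B (Nat.unpair k).1 (Nat.unpair k).2
  let s : ℕ → Cn := fun n => Nat.rec p (fun k q => f q k) n
  have hs : ∀ n, s (n + 1) = f (s n) n := fun n => rfl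
  obtain ⟨q, hq⟩ := sc s (fun n => by rw [hs]; exact hf1 _ _)
  refine ⟨q, hq 0, fun j m => ?_⟩
  have h1 := hf2 (s (Nat.pair j m)) (Nat.pair j m)
  rw [← hs, Nat.unpair_pair] at h1
  have hle := hq (Nat.pair j m + 1)
  rcases h1 with h1 | ⟨y, hy, h1⟩
  · exact Or.inl fun y hy => h1 y ((mo _ _ hle).1 hy)
  · exact Or.inr ⟨y, hle.1 hy, h1⟩

end Pool.Agent.HM
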