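import Pool.Agent.Lib.MP_d80832_gt.Mod.Stm

set_option autoImplicit false

namespace Pool.Agent.HM

open Pool.Agent.Lib.MP_d80832_gt

private lemma pi_pseudo {E : Type} (F : Set E) (hF : F.Countable) (hne : F.Nonempty)
    (g : E → ℕ → Prop)
    (htot : ∀ x ∈ F, ∀ y ∈ F, (∀ᶠ m in Filter.atTop, g x m → g y m) ∨
      (∀ᶠ m in Filter.atTop, g y m → g x m))
    (hinf : ∀ x ∈ F, ∃ᶠ m in Filter.atTop, g x m) :
    ∃ φ : ℕ → ℕ, StrictMono φ ∧ ∀ x ∈ F, ∀ᶠ n in Filter.atTop, g x (φ n) := by
  obtain ⟨w, hw⟩ := hF.exists_eq_range hne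
  have hwF : ∀ n, w n ∈ F := fun n => hw ▸ Set.mem_range_self n
  have hmin : ∀ n, ∃ x ∈ F, ∀ j ≤ n, ∀ᶠ m in Filter.atTop, g x m → g (w j) m := by
    intro n
    induction n with
    | zero =>
      refine ⟨w 0, hwF 0, ?_⟩
      intro j hj
      have : j = 0 := by omega
      subst this
      exact Filter.Eventually.of_forall fun m h => h
    | succ n ih =>
      obtain ⟨x, hx, hxj⟩ := ih
      rcases htot x hx (w (n + 1)) (hwF _) with h | h
      · refine ⟨x, hx, ?_⟩
        intro j hj
        rcases Nat.le_succ_iff.1 hj with hj | rfl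
        · exact hxj j hj
        · exact h
      · refine ⟨w (n + 1), hwF _, ?_⟩
        intro j hj
        rcases Nat.le_succ_iff.1 hj with hj | rfl
        · filter_upwards [h, hxj j hj] with m h1 h2 h3
          exact h2 (h1 h3)
        · exact Filter.Eventually.of_forall fun m h => h
  have hfreq : ∀ n, ∃ᶠ m in Filter.atTop, ∀ j ≤ n, g (w j) m := by
    intro n
    obtain ⟨x, hx, hxj⟩ := hmin n
    have h1 : ∀ᶠ m in Filter.atTop, ∀ j ∈ Finset.range (n + 1), g x m → g (w j) m := by
      rw [Filter.eventually_all_finset]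
      intro j hj
      exact hxj j (by have := Finset.mem_range.1 hj; omega)
    refine ((hinf x hx).and_eventually h1).mono ?_
    rintro m ⟨hm1, hm2⟩ j hj
    exact hm2 j (Finset.mem_range.2 (by omega)) hm1
  obtain ⟨φ, hφ, hφg⟩ := Filter.extraction_forall_of_frequently hfreq
  refine ⟨φ, hφ, ?_⟩
  intro x hx
  rw [hw] at hx
  obtain ⟨j, rfl⟩ := hx
  filter_upwards [Filter.eventually_ge_atTop j] with n hn
  exact hφg n j hn

theorem p_PI : S_PI := by
  intro X B hX htot hinf
  rcases X.eq_empty_or_nonempty with rfl | hne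
  · exact ⟨id, strictMono_id, fun x hx => absurd hx (Set.notMem_empty x)⟩
  · exact pi_pseudo X hX hne (fun x m => x ∈ (B m).1) htot hinf

end Pool.Agent.HM
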