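import Pool.Agent.Lib.MP_d80832_gt.Mod.Stm

set_option autoImplicit false

/-!
# MP_d80832_gt : the positive half
-/

namespace Pool.Agent.HM

open Pool.Agent.Lib.MP_d80832_gt
open Pool.Agent.CR (V Nm nat natN cut setR Memf Eqf IsTransModelZFC)
open Pool.Agent.FW (Ev ev_fun)

private theorem po_trace {e : Pt → ℝ} (he : Function.Injective e) {X D : Set Pt} {x : Pt}
    (hx : e x ∈ e '' (X ∩ D)) : x ∈ X ∩ D := by
  obtain ⟨y, hy, hxy⟩ := hx
  rwa [← he hxy]

/-- tau-covers of the image give large traces -/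
private theorem po_LT {e : Pt → ℝ} (he : Function.Injective e) {X : Set Pt} {B : ℕ → Ms}
    {U : Set (Set ℝ)} (hU : U = Set.range fun m => e '' (X ∩ (B m).1))
    (h : IsTauCover (e '' X) U) : LT X B := by
  obtain ⟨_, h2, h3⟩ := h
  have hinj : Function.Injective (fun A : Set Pt => e '' A) := he.image_injective
  have hmem : ∀ A ∈ tr X B, (fun A : Set Pt => e '' A) A ∈ U := by
    rintro A ⟨m, rfl⟩
    rw [hU]
    exact ⟨m, rfl⟩
  have hsub : ∀ A ∈ tr X B, ∀ x, (e x ∈ e '' A ↔ x ∈ A) := by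
    intro A _ x
    exact he.mem_set_image
  constructor
  · intro x hx
    have h4 := h2 (e x) ⟨x, hx, rfl⟩
    refine Set.Infinite.of_image (fun A : Set Pt => e '' A) (h4.mono ?_)
    rintro A' ⟨hA', hxA'⟩
    rw [hU] at hA'
    obtain ⟨m, rfl⟩ := hA'
    exact ⟨X ∩ (B m).1, ⟨⟨m, rfl⟩, po_trace he hxA'⟩, rfl⟩
  · intro x hx y hy
    have key : ∀ u v : Pt, {A ∈ U | e u ∈ A ∧ e v ∉ A}.Finite →
        {A ∈ tr X B | u ∈ A ∧ v ∉ A}.Finite := by
      intro u v hfin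
      refine (hfin.preimage (f := fun A : Set Pt => e '' A) hinj.injOn).subset ?_
      rintro A ⟨hA, hu, hv⟩
      exact ⟨hmem A hA, (hsub A hA u).2 hu, fun hc => hv ((hsub A hA v).1 hc)⟩
    rcases h3 (e x) ⟨x, hx, rfl⟩ (e y) ⟨y, hy, rfl⟩ with h | h
    · exact Or.inl (key x y h)
    · exact Or.inr (key y x h)

/-- a selection which eventually contains each point is a gamma-cover -/
private theorem po_gamma {X : Set ℝ} (W : ℕ → Set ℝ) (hW : ∀ n, W n ⊆ X) (hX : ∀ n, W n ≠ X)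
    (h : ∀ x ∈ X, ∀ᶠ n in Filter.atTop, x ∈ W n) : IsGammaCover X (Set.range W) := by
  refine ⟨⟨?_, ?_⟩, ?_, ?_⟩
  · apply Set.Subset.antisymm
    · rintro x ⟨A, ⟨n, rfl⟩, hx⟩
      exact hW n hx
    · intro x hx
      obtain ⟨n, hn⟩ := (h x hx).exists
      exact ⟨W n, ⟨n, rfl⟩, hn⟩
  · rintro ⟨n, hn⟩
    exact hX n hn
  · intro hfin
    have h1 : Finite (Set.range W) := hfin.to_subtype
    obtain ⟨A, hA⟩ := Finite.exists_infinite_fiber (Set.rangeFactorization W)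
    have hA' : {n | W n = A.1}.Infinite := by
      rw [Set.infinite_coe_iff] at hA
      refine hA.mono ?_
      intro n hn
      exact congrArg Subtype.val hn
    obtain ⟨n0, hn0⟩ := hA'.nonempty
    refine hX n0 (Set.Subset.antisymm (hW n0) ?_)
    intro x hx
    obtain ⟨N, hN⟩ := Filter.eventually_atTop.1 (h x hx)
    obtain ⟨n, hn, hNn⟩ := hA'.exists_gt N
    have h2 := hN n hNn.le
    rw [show W n = A.1 from hn] at h2
    rwa [show W n0 = A.1 from hn0]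
  · intro x hx
    obtain ⟨N, hN⟩ := Filter.eventually_atTop.1 (h x hx)
    refine ((Set.finite_lt_nat N).image W).subset ?_
    rintro A ⟨⟨n, rfl⟩, hn⟩
    refine ⟨n, ?_, rfl⟩
    by_contra hc
    exact hn (hN n (not_lt.1 hc))

theorem p_PO (g5 : S_G5) (g3 : S_G3) (g1 : S_G1) (sa : S_SA) (fr : S_FR) (cs : S_CS) : S_PO := by
  intro e he
  refine (g5.and (g3.and (g1.and ((sa e).and ((fr e).and ((cs e he).and
    (ev_fun (π := pp) fun l => match l with
      | [.m2 B, .nn ψ] => .m1 (fun n => B n (ψ n))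
      | _ => .bn (fun _ => default)))))))).mono ?_
  rintro M G ⟨h5, h3, h1, hsa, hfr, hcs, hcl⟩
  have hb : Ob.bn (fun _ => default) ∈ M := hcl [] (by simp)
  obtain ⟨t, ht, _⟩ := h3 _ hb
  have ht' : t ∈ Gs true M G := h1.1 ht
  intro U hU hUτ
  have hne : ∀ n, (U n).Nonempty := by
    intro n
    obtain ⟨A, hA⟩ := ((hUτ n).1.2.1 (e t) ⟨t, ht', rfl⟩).nonempty
    exact ⟨A, hA.1⟩
  obtain ⟨B, hB, hUB⟩ := hcs true U hU hne fun n => (hUτ n).2
  have hUB' : ∀ n, U n = Set.range fun m => e '' (Gs true M G ∩ (B n m).1) := hUB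
  obtain ⟨ψ, hψ, hψ'⟩ := h5 B hB fun n => po_LT he.inj (hUB' n) (hUτ n).1
  have hD : Ob.m1 (fun n => B n (ψ n)) ∈ M := hcl [.m2 B, .nn ψ] (by simp [hB, hψ])
  have hWU : ∀ n, Zs e true M G (B n (ψ n)) ∈ U n := by
    intro n
    rw [hUB n]
    exact ⟨ψ n, rfl⟩
  refine ⟨fun n => Zs e true M G (B n (ψ n)), (hsa true).2 _ hD, hWU, ?_, ?_⟩
  · refine po_gamma _ ?_ ?_ ?_
    · rintro n x ⟨y, hy, rfl⟩
      exact ⟨y, hy.1, rfl⟩
    · intro n hn
      apply (hUτ n).1.1.2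
      rw [← hn]
      exact hWU n
    · rintro x ⟨y, hy, rfl⟩
      filter_upwards [hψ' y hy] with n hn
      exact ⟨y, ⟨hy, hn⟩, rfl⟩
  · refine ⟨hfr true _ hD, ⟨_, (hsa true).2 _ hD, subset_rfl⟩, ?_⟩
    rintro A ⟨n, rfl⟩
    exact (hUτ n).2.2.2 _ (hWU n)

end Pool.Agent.HM
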