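import Pool.Agent.Lib.MP_d80832_gt.Mod.Stm

set_option autoImplicit false

/-!
# MP_d80832_gt : names of the points
-/

namespace Pool.Agent.HM

open Pool.Agent.Lib.MP_d80832_gt
open Pool.Agent.CR (V Nm nat natN cut setR Memf Eqf)
open Pool.Agent.FW (Ev ev_fun ev_ne ev_natN)

theorem p_PT (bg : S_BG) : S_PT := by
  intro e
  refine ((bg ℕ Ob.kk (fun a b h => by injection h) (fun _ k => natN Cn k) (fun l => match l with
      | [.pt x] => fun k => {_p | CR.rat k < e x}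
      | _ => fun _ => ∅)).and
    ((Ev.all fun m : ℕ => ev_fun (π := pp) (fun _ => Ob.kk m)).and
    ((ev_natN (π := pp)).and ev_ne))).mono ?_
  rintro M G ⟨h1, h2, h3, p0, hp0⟩ x hx
  have hl : ∀ y ∈ [Ob.pt x], y ∈ M := by simpa using hx
  obtain ⟨h5, -, h7⟩ := h1 [.pt x] hl
  refine ⟨h5, ?_⟩
  apply ZFSet.ext
  intro z
  refine (h7 z).trans ?_
  unfold cut
  rw [ZFSet.mem_range]
  constructor
  · rintro ⟨m, _, ⟨p, _, hp⟩, rfl⟩
    exact ⟨⟨m, hp⟩, ((h3 m).2).symm⟩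
  · rintro ⟨⟨m, hm⟩, rfl⟩
    exact ⟨m, h2 m [] (by simp), ⟨p0, hp0, hm⟩, ((h3 m).2).symm⟩

end Pool.Agent.HM
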