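import Pool.Agent.Lib.MP_d80832_gt.Mod.Stm

set_option autoImplicit false

/-!
# MP_d80832_gt : the generic sets and sequences of traces are in the model
-/

namespace Pool.Agent.HM

open Pool.Agent.Lib.MP_d80832_gt
open Pool.Agent.CR (V Nm nat natN cut setR Memf Eqf)
open Pool.Agent.FW (Ev ev_fun ev_natN ev_opN ev_ne)

private def sa_a (e : Pt → ℝ) (s : Bool) : List Ob → ℕ → Nm Cn := fun l n => match l with
  | [.m1 D] => FW.opN (natN Cn n) (ZN e s (D n))
  | _ => Nm.emp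

theorem p_SA (bg : S_BG) (zn : S_ZN) : S_SA := by
  intro e
  refine Ev.all (ι := Bool) fun s => ?_
  have hinj : Function.Injective Ob.kk := fun a b h => by simpa using h
  have h1 := bg ℕ Ob.kk hinj (sa_a e s) (fun _ _ => Set.univ)
  have h2 : Ev pp (fun M _ => ∀ n, Ob.kk n ∈ M) :=
    Ev.all fun n => (ev_fun (π := pp) fun _ => Ob.kk n).mono fun M _ h => h [] (by simp)
  have h3 : Ev pp (fun M _ => Ob.ms ⟨Set.univ, MeasurableSet.univ⟩ ∈ M) :=
    (ev_fun (π := pp) fun _ => Ob.ms ⟨Set.univ, MeasurableSet.univ⟩).mono fun M _ h => h [] (by simp)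
  have h4 : Ev pp (fun M _ => ∀ n, ∀ D : ℕ → Ms, Ob.m1 D ∈ M → Ob.ms (D n) ∈ M) :=
    Ev.all fun n => (ev_fun (π := pp) fun l => match l with
      | [.m1 D] => Ob.ms (D n)
      | _ => Ob.no).mono fun M _ h D hD => h [Ob.m1 D] (by simpa using hD)
  refine (((h1.and h2).and (h3.and h4)).and (((zn e).and ev_ne).and
    (ev_natN.and ev_opN))).mono ?_
  rintro M G ⟨⟨⟨h1, h2⟩, h3, h4⟩, ⟨zn, hne⟩, hn, hp⟩
  refine ⟨?_, fun D hD => ?_⟩
  · obtain ⟨h5, h6⟩ := zn s ⟨Set.univ, MeasurableSet.univ⟩ h3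
    have h7 : Xs e s M G = Zs e s M G ⟨Set.univ, MeasurableSet.univ⟩ := by
      unfold Xs Zs
      simp
    rw [h7, ← h6]
    exact ⟨_, h5, rfl⟩
  · obtain ⟨h5, h6, h7⟩ := h1 [Ob.m1 D] (by simpa using hD)
    have h8 : pp.vl M G (bag (sa_a e s [Ob.m1 D]) (fun _ => Set.univ)) =
        seqA (fun n => Zs e s M G (D n)) := by
      apply ZFSet.ext
      intro z
      rw [h7 z]
      unfold seqA
      rw [ZFSet.mem_range]
      constructor
      · rintro ⟨n, _, _, hz⟩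
        refine ⟨n, ?_⟩
        rw [hz]
        obtain ⟨h9, h10⟩ := zn s (D n) (h4 n D hD)
        change _ = pp.vl M G (FW.opN (natN Cn n) (ZN e s (D n)))
        rw [(hp _ (hn n).1 _ h9).2, (hn n).2, h10]
      · rintro ⟨n, hz⟩
        obtain ⟨p, hpG⟩ := hne
        refine ⟨n, h2 n, ⟨p, hpG, trivial⟩, ?_⟩
        rw [← hz]
        obtain ⟨h9, h10⟩ := zn s (D n) (h4 n D hD)
        change _ = pp.vl M G (FW.opN (natN Cn n) (ZN e s (D n)))
        rw [(hp _ (hn n).1 _ h9).2, (hn n).2, h10]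
    rw [← h8]
    exact ⟨_, h5, rfl⟩

end Pool.Agent.HM
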