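import Pool.Agent.Lib.MP_d80832_gt.Mod.Stm

set_option autoImplicit false

namespace Pool.Agent.HM

open Pool.Agent.Lib.MP_d80832_gt

theorem p_SC : S_SC := by
  intro p hp
  have hanti : ∀ n m, n ≤ m → p m ≤ p n := by
    intro n m hnm
    induction m, hnm using Nat.le_induction with
    | base => exact le_refl _
    | succ m _ ih => exact (hp m).trans ih
  obtain ⟨C, hC, hCl⟩ := exists_lower_seq (fun n => (p n).C) (fun n => (p n).cC)
    (fun n => (hp n).2.2.1)
  refine ⟨⟨⋃ n, (p n).X, ⋃ n, (p n).Y, C, Set.countable_iUnion fun n => (p n).cX,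
    Set.iUnion_mono fun n => (p n).sub, hC, ?_, ?_, ?_⟩, ?_⟩
  · intro u hu v hv k
    obtain ⟨n, hn⟩ := Set.mem_iUnion.1 hu
    obtain ⟨m, hm⟩ := Set.mem_iUnion.1 hv
    exact (p (max n m)).chain u ((hanti n _ (le_max_left _ _)).2.1 hn) v
      ((hanti m _ (le_max_right _ _)).2.1 hm) k
  · intro u hu x hx k
    obtain ⟨n, hn⟩ := Set.mem_iUnion.1 hu
    exact (p n).below u hn x (star_mono (hCl n) hx) k
  · intro y hy
    obtain ⟨n, hn⟩ := Set.mem_iUnion.1 hy
    exact (p n).ball y hn
  · intro n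
    refine ⟨Set.subset_iUnion (fun n => (p n).X) n, Set.subset_iUnion (fun n => (p n).Y) n,
      hCl n, ?_, ?_⟩
    · intro x hx hx'
      obtain ⟨m, hm⟩ := Set.mem_iUnion.1 hx
      rcases le_total m n with h | h
      · exact absurd ((hanti m n h).1 hm) hx'
      · exact (hanti n m h).2.2.2.1 x hm hx'
    · intro x hx hx'
      obtain ⟨m, hm⟩ := Set.mem_iUnion.1 hx
      rcases le_total m n with h | h
      · exact absurd ((hanti m n h).2.1 hm) hx'
      · exact (hanti n m h).2.2.2.2 x hm hx'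

end Pool.Agent.HM
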