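import Pool.Agent.Lib.MP_d80832_gt.Mod.Stm

set_option autoImplicit false

/-!
# MP_d80832_gt : sequences of countable families of traces
-/

namespace Pool.Agent.HM

open Pool.Agent.CR (V Nm nat natN cut setR Memf Eqf)
open Pool.Agent.FW (Ev ev_fun ev_ne ev_natN ev_opN)

/-- the names of the terms -/
private noncomputable def sf_a (e : Pt → ℝ) (s : Bool) (l : List Ob) (k : ℕ) : Nm Cn :=
  match l with
  | [.m2 B] => FW.opN (natN Cn k.unpair.1) (ZN e s (B k.unpair.1 k.unpair.2))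
  | _ => Nm.emp

theorem p_SF (bg : S_BG) (zn : S_ZN) : S_SF := by
  intro e
  refine Ev.mono (Ev.all fun s : Bool =>
    ((bg ℕ Ob.kk (fun a b h => by simpa using h) (sf_a e s) (fun _ _ => Set.univ)).and
    ((zn e).and (ev_ne.and (ev_natN.and (ev_opN.and
    ((Ev.all fun k : ℕ => ev_fun (π := pp) (fun _ => Ob.kk k)).and
    (Ev.all fun k : ℕ × ℕ => ev_fun (π := pp) (fun l => match l with
      | [.m2 B] => .ms (B k.1 k.2)
      | _ => .no)))))))))
    ?_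
  intro M G h s B hB
  obtain ⟨h1, h2, ⟨p0, hp0⟩, h4, h5, h6, h7⟩ := h s
  have hl : ∀ x ∈ ([.m2 B] : List Ob), x ∈ M := by simpa using hB
  obtain ⟨h8, -, h9⟩ := h1 [.m2 B] hl
  have hms : ∀ n m, Ob.ms (B n m) ∈ M := fun n m => h7 (n, m) [.m2 B] hl
  have hval : ∀ n m, pp.vl M G (FW.opN (natN Cn n) (ZN e s (B n m))) =
      ZFSet.pair (nat n) (setR (Zs e s M G (B n m))) := by
    intro n m
    obtain ⟨h10, h11⟩ := h2 s (B n m) (hms n m)
    rw [(h5 _ (h4 n).1 _ h10).2, (h4 n).2, h11]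
  refine ⟨_, h8, ?_⟩
  apply ZFSet.ext
  intro z
  refine (h9 z).trans ?_
  unfold seqF
  rw [ZFSet.mem_range]
  constructor
  · rintro ⟨k, -, -, rfl⟩
    refine ⟨⟨(k.unpair.1, Zs e s M G (B k.unpair.1 k.unpair.2)), ⟨k.unpair.2, rfl⟩⟩, ?_⟩
    exact (hval k.unpair.1 k.unpair.2).symm
  · rintro ⟨⟨⟨n, A⟩, ⟨m, hm⟩⟩, rfl⟩
    refine ⟨Nat.pair n m, h6 _ [] (by simp), ⟨p0, hp0, trivial⟩, ?_⟩
    have h10 : sf_a e s [.m2 B] (Nat.pair n m) = FW.opN (natN Cn n) (ZN e s (B n m)) := by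
      simp only [sf_a, Nat.unpair_pair]
    rw [h10, hval]
    change ZFSet.pair (nat n) (setR A) = _
    have hm' : Zs e s M G (B n m) = A := hm
    rw [hm']

end Pool.Agent.HM
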