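import Pool.Agent.Lib.MP_d80832_gt.Mod.Stm

set_option autoImplicit false

/-!
# MP_d80832_gt : piece ST, one step   (helper54)
-/

namespace Pool.Agent.HM

open Pool.Agent.Lib.MP_d80832_gt

/-- bounding on a countable set and a set where a bound is known -/
private theorem st_bound (S : Set Pt) (hS : S.Countable) (T : Set Pt) (B : ℕ → ℕ → Ms)
    (h : ℕ → ℕ) (hh : ∀ y ∈ T, ∀ᶠ n in Filter.atTop,
      (∀ᶠ m in Filter.atTop, y ∈ (B n m).1) → ∀ m, h n ≤ m → y ∈ (B n m).1) :
    ∃ h' : ℕ → ℕ, ∀ y ∈ S ∪ T, ∀ᶠ n in Filter.atTop,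
      (∀ᶠ m in Filter.atTop, y ∈ (B n m).1) → ∀ m, h' n ≤ m → y ∈ (B n m).1 := by
  classical
  obtain ⟨w, hw⟩ := Set.countable_iff_exists_subset_range.1 hS
  let thr : ℕ → ℕ → ℕ := fun j n =>
    if hev : ∀ᶠ m in Filter.atTop, w j ∈ (B n m).1 then (Filter.eventually_atTop.1 hev).choose
    else 0
  have hthr : ∀ j n, (∀ᶠ m in Filter.atTop, w j ∈ (B n m).1) →
      ∀ m, thr j n ≤ m → w j ∈ (B n m).1 := by
    intro j n hev m hm
    have h1 : thr j n = (Filter.eventually_atTop.1 hev).choose := by
      simp only [thr]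
      rw [dif_pos hev]
    rw [h1] at hm
    exact (Filter.eventually_atTop.1 hev).choose_spec m hm
  refine ⟨fun n => h n + ∑ j ∈ Finset.range (n + 1), thr j n, ?_⟩
  intro y hy
  rcases hy with hy' | hy'
  · obtain ⟨j, rfl⟩ := hw hy'
    filter_upwards [Filter.eventually_ge_atTop j] with n hn hev m hm
    apply hthr j n hev
    have h1 : thr j n ≤ ∑ j ∈ Finset.range (n + 1), thr j n :=
      Finset.single_le_sum (f := fun j => thr j n) (fun _ _ => Nat.zero_le _)
        (Finset.mem_range.2 (by omega))
    omega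
  · filter_upwards [hh y hy'] with n hn hev m hm
    exact hn hev m (by omega)

theorem p_ST : S_ST := by
  classical
  intro p B1 B2 b g
  obtain ⟨C', X0, Y0, hC', hle, hX0c, hY0c, hX0, hY0, ⟨h, hh⟩, hlin, hav, hpa, hbelow, hchain⟩ :=
    step col p.cC (fun n m => (B1 n m).1) (fun n m => (B1 n m).2) (fun m => (B2 m).1)
      (fun m => (B2 m).2) b g
  have hstar : star C' ⊆ star p.C := star_mono hle
  let q : Cn :=
    { X := p.X ∪ (X0 ∪ Y0)
      Y := p.Y ∪ Y0
      C := C'
      cX := p.cX.union (hX0c.union hY0c)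
      sub := Set.union_subset_union p.sub Set.subset_union_right
      cC := hC'
      chain := by
        intro u hu v hv k
        rcases hu with hu | hu <;> rcases hv with hv | hv
        · exact p.chain u hu v hv k
        · exact Or.inr (p.below u hu v (hY0 hv) k)
        · exact Or.inl (p.below v hv u (hY0 hu) k)
        · exact hchain u hu v hv k
      below := by
        intro u hu x hx k
        rcases hu with hu | hu
        · exact p.below u hu x (hstar hx) k
        · exact hbelow u hu x hx k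
      ball := by
        intro y hy
        rcases hy with hy | hy
        · exact p.ball y hy
        · have h1 := hY0 hy
          filter_upwards [p.cC 0, h1] with i hi hi'
          exact hi.1 hi' }
  have hqp : q ≤ p := by
    refine ⟨Set.subset_union_left, Set.subset_union_left, hle, ?_, ?_⟩
    · intro x hx hx'
      rcases hx with hx | hx | hx
      · exact absurd hx hx'
      · exact hX0 hx
      · exact hY0 hx
    · intro x hx hx'
      rcases hx with hx | hx
      · exact absurd hx hx'
      · exact hY0 hx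
  refine ⟨q, hqp, ?_, ?_, ?_, ?_⟩
  · exact st_bound q.X q.cX (star C') B1 h hh
  · rcases hlin with ⟨x, hx, y, hy, h1, h2⟩ | hlin
    · exact Or.inl ⟨x, Or.inr (Or.inl hx), y, Or.inr (Or.inl hy), h1, h2⟩
    · right
      intro y hy
      rcases hy with hy | hy
      · exact ⟨y, hy, Filter.Eventually.of_forall fun m hm => hm⟩
      · obtain ⟨x, hx, h1⟩ := hlin y hy
        exact ⟨x, Or.inr (Or.inl hx), h1⟩
  · obtain ⟨t, ht, h1⟩ := hav
    exact ⟨t, Or.inr ht, h1⟩
  · obtain ⟨y, hy, z, hz, h1⟩ := hpa
    exact ⟨y, Or.inr hy, z, Or.inr hz, h1⟩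

end Pool.Agent.HM
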