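import Pool.Agent.Lib.MP_d80832_gt.Mod.Stm

set_option autoImplicit false

/-!
# MP_d80832_gt : subsets of countable sets   (helper26)
-/

namespace Pool.Agent.HM

open Pool.Agent.Lib.MP_d80832_gt
open Pool.Agent.CR (V Nm nat natN cut setR Memf Eqf Memf_mono IsTransModelZFC)
open Pool.Agent.FW (Ev ev_fun ev_dense ev_mem ev_dir)

private def su_R (a : List Ob → ℕ → Nm Cn) (l' : List Ob) (n : ℕ) (x : Ob) (p : Cn) : Prop :=
  ∃ (τ : Nm Cn) (l : List Ob), l' = Ob.nm τ :: l ∧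
    ((x = Ob.kk 1 ∧ Memf (a l n) τ p) ∨ (x = Ob.kk 0 ∧ ∀ r ≤ p, ¬ Memf (a l n) τ r))

private theorem su_mono (a : List Ob → ℕ → Nm Cn) : ∀ l n x p q, q ≤ p → su_R a l n x p →
    su_R a l n x q := by
  rintro l' n x p q hqp ⟨τ, l, h1, h2⟩
  refine ⟨τ, l, h1, ?_⟩
  rcases h2 with ⟨h3, h4⟩ | ⟨h3, h4⟩
  · exact Or.inl ⟨h3, Memf_mono h4 hqp⟩
  · exact Or.inr ⟨h3, fun r hr => h4 r (hr.trans hqp)⟩

theorem p_SU (ge : S_GE) : S_SU := by
  classical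
  intro a
  refine ((ge (su_R a) (su_mono a)).and ((Ev.all (π := pp) (fun n : ℕ => ev_dense (π := pp)
    (fun l' => {p | ∃ (τ : Nm Cn) (l : List Ob), l' = Ob.nm τ :: l ∧
      (Memf (a l n) τ p ∨ ∀ r ≤ p, ¬ Memf (a l n) τ r)}))).and
    ((Ev.all (π := pp) (fun n : ℕ => ev_fun (π := pp) (fun l => Ob.nm (a l n)))).and
    ((ev_fun (π := pp) (fun l => match l with
      | [.sq F] => Ob.st {n | F n = Ob.kk 1}
      | _ => Ob.no)).and (ev_mem.and ev_dir))))).mono ?_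
  rintro M G ⟨h1, h2, h3, h4, h5, h6⟩ l hl w ⟨τ, hτ, rfl⟩
  have hτ' : Ob.nm τ ∈ M := hτ
  have hl' : ∀ x ∈ Ob.nm τ :: l, x ∈ M := by
    intro x hx
    rcases List.mem_cons.1 hx with rfl | hx
    · exact hτ'
    · exact hl x hx
  have h7 : ∀ n, ∃ x, ∃ p ∈ G, su_R a (Ob.nm τ :: l) n x p := by
    intro n
    obtain ⟨p, hp, τ', l', he, hd⟩ := h2 n (Ob.nm τ :: l) hl' (fun p => by
      by_cases h : ∃ r ≤ p, Memf (a l n) τ r
      · obtain ⟨r, hr, hr'⟩ := h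
        exact ⟨r, hr, τ, l, rfl, Or.inl hr'⟩
      · exact ⟨p, le_rfl, τ, l, rfl, Or.inr fun r hr h' => h ⟨r, hr, h'⟩⟩)
    rcases hd with hd | hd
    · exact ⟨Ob.kk 1, p, hp, τ', l', he, Or.inl ⟨rfl, hd⟩⟩
    · exact ⟨Ob.kk 0, p, hp, τ', l', he, Or.inr ⟨rfl, hd⟩⟩
  obtain ⟨F, hF, p, hp, h8⟩ := h1 (Ob.nm τ :: l) hl' h7
  refine ⟨{n | F n = Ob.kk 1}, ?_, fun m => ⟨?_, ?_⟩⟩
  · have h9 := h4 [.sq F] (by simpa using hF)
    exact h9
  · exact h3 m l hl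
  · have hm : a l m ∈ pp.H M := h3 m l hl
    refine Iff.trans ?_ (h5 _ hm _ hτ).symm
    obtain ⟨τ', l', he, hd⟩ := h8 m
    simp only [List.cons.injEq, Ob.nm.injEq] at he
    obtain ⟨rfl, rfl⟩ := he
    constructor
    · intro hA
      have hA' : F m = Ob.kk 1 := hA
      rcases hd with ⟨_, h10⟩ | ⟨h10, _⟩
      · exact ⟨p, hp, h10⟩
      · rw [h10] at hA'
        simp at hA'
    · rintro ⟨q, hq, hq'⟩
      rcases hd with ⟨h10, _⟩ | ⟨_, h10⟩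
      · exact h10
      · obtain ⟨r, _, hr1, hr2⟩ := h6 p hp q hq
        exact absurd (Memf_mono hq' hr2) (h10 r hr1)

end Pool.Agent.HM
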