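import Pool.Agent.Lib.MP_d80832_gt.Mod.Stm

set_option autoImplicit false

/-!
# MP_d80832_gt : the smaller set is uncountable in the model
-/

namespace Pool.Agent.HM

open Pool.Agent.Lib.MP_d80832_gt
open Pool.Agent.CR (V Nm nat natN cut setR Memf Eqf IsTransModelZFC)
open Pool.Agent.FW (Ev)

/-- the diagonal sequence of a sequence of points -/
private def uc_dg (f : ℕ → Ob) (n : ℕ) : Node :=
  match f n with
  | .pt x => x n
  | _ => default

private def uc_op : List Ob → Ob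
  | [.sq f] => .bn (uc_dg f)
  | _ => .no

theorem p_UC (ij : S_IJ) (pt : S_PT) (sq : S_SQ) (g3 : S_G3) : S_UC := by
  intro e he
  refine ((pt e).and ((sq Pt Ob.pt (fun x y h => by simpa using h) (fun x h => by simp at h)
    (fun x => ptN e x) (fun _ _ => True)).and (g3.and (FW.ev_fun uc_op)))).mono ?_
  rintro M G ⟨h1, h2, h3, h4⟩ ⟨s, hs, hY⟩
  obtain ⟨F, hF, hF'⟩ := h2 _ hs
  have hb : Ob.bn (uc_dg (fun n => (F n).elim Ob.no Ob.pt)) ∈ M :=
    h4 [Ob.sq (fun n => (F n).elim Ob.no Ob.pt)] (by simpa using hF)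
  obtain ⟨t, ht, hav⟩ := h3 _ hb
  obtain ⟨n, hn⟩ := hY ⟨t, ht, rfl⟩
  have hseq := ij.2.2.2.2.2.2.2
  rcases hFn : F n with _ | x
  · refine (hF' n).2 hFn t ht.1 trivial ?_
    rw [(h1 t ht.1).2, hseq]
    exact hn.symm
  · obtain ⟨hx, _, hx'⟩ := (hF' n).1 x hFn
    rw [(h1 x hx).2, hseq] at hx'
    have hxt : x = t := he.inj (hx'.trans hn)
    apply hav n
    have : uc_dg (fun n => (F n).elim Ob.no Ob.pt) n = t n := by
      unfold uc_dg
      simp only [hFn, Option.elim_some, hxt]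
    rw [this]
    exact Node.anc_refl _

end Pool.Agent.HM
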