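import Pool.Agent.Lib.MP_d80832_gt.Mod.Stm

set_option autoImplicit false

/-!
# MP_d80832_gt : the names of the terms of a sequence of families
-/

namespace Pool.Agent.HM

open Pool.Agent.Lib.MP_d80832_gt
open Pool.Agent.CR (V Nm nat natN cut setR Memf Eqf IsTransModelZFC)
open Pool.Agent.FW (Ev)

private def un_D (e : Pt → ℝ) (s : Bool) (n : ℕ) (l : List Ob) (D : Ms) : Set Cn :=
  match l with
  | [.nm ν] => {p | Memf (FW.opN (natN Cn n) (ZN e s D)) ν p}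
  | _ => ∅

theorem p_UN (bg : S_BG) (zn : S_ZN) (ij : S_IJ) : S_UN := by
  intro e
  refine ((FW.Ev.all (ι := Bool × ℕ) (fun x => bg Ms Ob.ms (fun D D' h => by simpa using h)
    (fun _ D => ZN e x.1 D) (un_D e x.1 x.2))).and ((zn e).and (FW.ev_mem.and
      (FW.ev_opN.and FW.ev_natN)))).mono ?_
  rintro M G ⟨h1, h2, h3, h4, h5⟩ s ν hν n U hU hall
  obtain ⟨k1, _, k3⟩ := h1 (s, n) [Ob.nm ν] (by
    intro x hx
    rw [List.mem_singleton] at hx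
    rw [hx]
    exact hν)
  have hrfl : bag (fun D => ZN e s D) (un_D e s n [Ob.nm ν]) = UN e s ν n := rfl
  have hmem : ∀ D, Ob.ms D ∈ M → ((∃ p ∈ G, p ∈ un_D e s n [Ob.nm ν] D) ↔
      Zs e s M G D ∈ U n) := by
    intro D hD
    obtain ⟨z1, z2⟩ := h2 s D hD
    obtain ⟨n1, n2⟩ := h5 n
    obtain ⟨o1, o2⟩ := h4 _ n1 _ z1
    have e1 := h3 _ o1 _ hν
    rw [o2, n2, z2, hU, ij.2.2.2.2.2.2.1] at e1
    exact e1.symm
  refine ⟨k1, ?_⟩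
  apply ZFSet.ext
  intro z
  have k4 : z ∈ pp.vl M G (UN e s ν n) ↔ ∃ D, Ob.ms D ∈ M ∧
      (∃ p ∈ G, p ∈ un_D e s n [Ob.nm ν] D) ∧ z = pp.vl M G (ZN e s D) := k3 z
  rw [k4]
  unfold famR
  rw [ZFSet.mem_range]
  constructor
  · rintro ⟨D, hD, hp, rfl⟩
    exact ⟨⟨_, (hmem D hD).1 hp⟩, ((h2 s D hD).2).symm⟩
  · rintro ⟨⟨A, hA⟩, rfl⟩
    obtain ⟨D, hD, rfl⟩ := hall A hA
    exact ⟨D, hD, (hmem D hD).2 hA, ((h2 s D hD).2).symm⟩

end Pool.Agent.HM
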