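import Pool.Agent.Lib.MP_d80832_gt.Mod.Stm

set_option autoImplicit false

/-!
# MP_d80832_gt : names of the traces
-/

namespace Pool.Agent.HM

open Pool.Agent.Lib.MP_d80832_gt
open Pool.Agent.CR (V Nm nat natN cut setR Memf Eqf)
open Pool.Agent.FW (Ev)

/-- the conditions which decide membership in the trace -/
private def zn_D (s : Bool) : List Ob → Pt → Set Cn
  | [.ms D], x => {p | x ∈ sel s p ∧ x ∈ D.1}
  | _, _ => ∅

theorem p_ZN (bg : S_BG) (pt : S_PT) : S_ZN := by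
  intro e
  have hinj : Function.Injective Ob.pt := fun x y h => by injection h
  refine Ev.all fun s => ?_
  refine ((bg Pt Ob.pt hinj (fun _ x => ptN e x) (zn_D s)).and (pt e)).mono ?_
  rintro M G ⟨h1, h2⟩ D hD
  obtain ⟨ha, -, hc⟩ := h1 [Ob.ms D] (by simpa using hD)
  refine ⟨ha, ?_⟩
  ext z
  have hz := hc z
  have hz' : z ∈ pp.vl M G (ZN e s D) ↔
      ∃ i, Ob.pt i ∈ M ∧ (∃ p ∈ G, i ∈ sel s p ∧ i ∈ D.1) ∧ z = pp.vl M G (ptN e i) := hz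
  rw [hz']
  unfold setR
  rw [ZFSet.mem_range]
  constructor
  · rintro ⟨x, hx, ⟨p, hp, h3, h4⟩, rfl⟩
    exact ⟨⟨e x, x, ⟨⟨hx, p, hp, h3⟩, h4⟩, rfl⟩, ((h2 x hx).2).symm⟩
  · rintro ⟨⟨r, x, ⟨⟨hx, p, hp, h3⟩, h4⟩, rfl⟩, rfl⟩
    exact ⟨x, hx, ⟨p, hp, h3, h4⟩, ((h2 x hx).2).symm⟩

end Pool.Agent.HM
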