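import Pool.Agent.Lib.MP_d80832_gt.Mod.Stm

set_option autoImplicit false

/-!
# MP_d80832_gt : the bad covers
-/

namespace Pool.Agent.HM

open Pool.Agent.Lib.MP_d80832_gt
open Pool.Agent.CR (V Nm nat natN cut setR Memf Eqf IsTransModelZFC)
open Pool.Agent.FW (Ev)

/-- the index sets of the bad covers -/
private def bd_I (k : ℕ) : Set (ℕ × Node) := {q | col q.1 = k ∧ q.2 ∈ Node.ball (H q.1)}

private theorem bd_I_ne (k : ℕ) : (bd_I k).Nonempty := by
  have h1 : (0 : ℝ) < Node.S default (Node.ball (H (Nat.pair k 0))) := by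
    rw [Node.S_root_ball]
    have : 0 < H (Nat.pair k 0) := by
      unfold H
      exact pow_pos (L_pos _) _
    exact_mod_cast this
  obtain ⟨x, hx, _⟩ := Node.S_pos_exists h1
  exact ⟨(Nat.pair k 0, x), by simp [col], hx⟩

private theorem bd_enum (k : ℕ) : ∃ c : ℕ → ℕ × Node, bd_I k = Set.range c :=
  (Set.to_countable (bd_I k)).exists_eq_range (bd_I_ne k)

private theorem bd_mem {e : Pt → ℝ} (he : Emb e) {M : Set Ob} {G : Set Cn} {s : Bool} {y : Pt}
    (hy : y ∈ Gs s M G) (D : Ms) : e y ∈ Zs e s M G D ↔ y ∈ D.1 := by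
  constructor
  · rintro ⟨z, ⟨_, hz⟩, hzy⟩
    rw [← he.inj hzy]
    exact hz
  · intro h
    exact ⟨y, ⟨hy, h⟩, rfl⟩

private theorem bd_below {Y : Set Pt}
    (hchain : ∀ u ∈ Y, ∀ v ∈ Y, ∀ k, Below col k u v ∨ Below col k v u) (k : ℕ)
    (F : Set Pt) (hF : F.Finite) (hne : F.Nonempty) (hFY : F ⊆ Y) :
    ∃ u ∈ F, ∀ v ∈ F, Below col k u v := by
  have hrefl : ∀ x, Below col k x x := fun x =>
    Filter.Eventually.of_forall fun i _ => Node.anc_refl _
  induction F, hF using Set.Finite.induction_on with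
  | empty => exact absurd hne Set.not_nonempty_empty
  | @insert z s _ _ ih =>
    rcases s.eq_empty_or_nonempty with rfl | hs
    · refine ⟨z, Set.mem_insert _ _, ?_⟩
      intro v hv
      rcases hv with rfl | hv
      · exact hrefl _
      · exact absurd hv (Set.notMem_empty v)
    · obtain ⟨x, hx, hxs⟩ := ih hs ((Set.subset_insert _ _).trans hFY)
      rcases hchain x (hFY (Set.mem_insert_of_mem _ hx)) z (hFY (Set.mem_insert _ _)) k with h | h
      · refine ⟨x, Set.mem_insert_of_mem _ hx, ?_⟩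
        intro v hv
        rcases hv with rfl | hv
        · exact h
        · exact hxs v hv
      · refine ⟨z, Set.mem_insert _ _, ?_⟩
        intro v hv
        rcases hv with rfl | hv
        · exact hrefl _
        · filter_upwards [h, hxs v hv] with i h1 h2 hi
          exact Node.anc_trans (h2 hi) (h1 hi)

private theorem bd_tau {e : Pt → ℝ} (he : Emb e) {M : Set Ob} {G : Set Cn}
    (hchain : ∀ u ∈ Gs false M G, ∀ v ∈ Gs false M G, ∀ k, Below col k u v ∨ Below col k v u)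
    (hball : ∀ y ∈ Gs false M G, ∀ᶠ i in Filter.atTop, y i ∈ Node.ball (H i))
    (havoid : ∀ b : Node, ∃ t ∈ Gs false M G, ∀ i, ¬ Node.Anc (t i) b) (k : ℕ) :
    IsTauCover (Xs e false M G) (bad e M G k) := by
  classical
  have hcol : ∃ᶠ i in Filter.atTop, col i = k := by
    rw [Filter.frequently_atTop]
    intro a
    refine ⟨Nat.pair k a, Nat.right_le_pair k a, ?_⟩
    simp [col]
  have hmem : ∀ u ∈ Gs false M G, ∃ᶠ i in Filter.atTop, col i = k ∧ (u i) ∈ Node.ball (H i) :=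
    fun u hu => hcol.and_eventually (hball u hu)
  have hVne : ∀ i b, ∃ r ∈ Gs false M G, e r ∉ Zs e false M G (Vs i b) := by
    intro i b
    obtain ⟨t, ht, htb⟩ := havoid b
    exact ⟨t, ht, fun h => htb i ((bd_mem he ht _).1 h)⟩
  refine ⟨⟨?_, ?_⟩, ?_, ?_⟩
  · apply Set.Subset.antisymm
    · rintro x ⟨A, ⟨i, b, _, _, rfl⟩, y, ⟨hy, _⟩, rfl⟩
      exact ⟨y, hy, rfl⟩
    · rintro x ⟨y, hy, rfl⟩
      obtain ⟨i, hi, hi'⟩ := (hmem y hy).exists
      exact ⟨_, ⟨i, y i, hi, hi', rfl⟩, (bd_mem he hy _).2 (Node.anc_refl _)⟩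
  · rintro ⟨i, b, _, _, h⟩
    obtain ⟨r, hr, hr'⟩ := hVne i b
    rw [← h] at hr'
    exact hr' ⟨r, hr, rfl⟩
  · rintro _ ⟨r, hr, rfl⟩ hfin
    have hz : ∀ W : Set ℝ, W ∈ {W ∈ bad e M G k | e r ∈ W} → ∃ z ∈ Gs false M G, e z ∉ W := by
      rintro W ⟨⟨i, b, _, _, rfl⟩, _⟩
      exact hVne i b
    choose! z hz1 hz2 using hz
    let F : Set Pt := insert r (z '' {W ∈ bad e M G k | e r ∈ W})
    have hFfin : F.Finite := (hfin.image z).insert r
    have hFY : F ⊆ Gs false M G := by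
      intro x hx
      rcases hx with rfl | ⟨W, hW, rfl⟩
      · exact hr
      · exact hz1 W hW
    obtain ⟨u, hu, huF⟩ := bd_below hchain k F hFfin ⟨r, Set.mem_insert _ _⟩ hFY
    have hevF : ∀ᶠ i in Filter.atTop, ∀ v ∈ F, col i = k → Node.Anc (v i) (u i) := by
      rw [Filter.eventually_all_finite hFfin]
      intro v hv
      exact huF v hv
    obtain ⟨i, ⟨hik, hib⟩, hi⟩ := ((hmem u (hFY hu)).and_eventually hevF).exists
    have hWmem : Zs e false M G (Vs i (u i)) ∈ {W ∈ bad e M G k | e r ∈ W} :=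
      ⟨⟨i, _, hik, hib, rfl⟩, (bd_mem he hr _).2 (hi r (Set.mem_insert _ _) hik)⟩
    apply hz2 _ hWmem
    exact (bd_mem he (hz1 _ hWmem) _).2 (hi _ (Set.mem_insert_of_mem _ ⟨_, hWmem, rfl⟩) hik)
  · have key : ∀ x ∈ Gs false M G, ∀ y ∈ Gs false M G, Below col k x y →
        {W ∈ bad e M G k | e x ∈ W ∧ e y ∉ W}.Finite := by
      intro x hx y hy hxy
      obtain ⟨N, hN⟩ := Filter.eventually_atTop.1 hxy
      have hfin : (⋃ i ∈ Set.Iio N, (fun b => Zs e false M G (Vs i b)) ''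
          (Node.ball (H i) : Set Node)).Finite := by
        apply (Set.finite_Iio N).biUnion
        intro i _
        exact (Finset.finite_toSet _).image _
      refine hfin.subset ?_
      rintro W ⟨⟨i, b, hik, hb, rfl⟩, hx', hy'⟩
      rw [Set.mem_iUnion₂]
      refine ⟨i, ?_, b, hb, rfl⟩
      by_contra hiN
      rw [Set.mem_Iio, not_lt] at hiN
      exact hy' ((bd_mem he hy _).2 (Node.anc_trans (hN i hiN hik) ((bd_mem he hx _).1 hx')))
    rintro _ ⟨x, hx, rfl⟩ _ ⟨y, hy, rfl⟩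
    rcases hchain x hx y hy k with h | h
    · exact Or.inl (key x hx y hy h)
    · exact Or.inr (key y hy x hx h)

theorem p_BD (_g1 : S_G1) (g2 : S_G2) (g3 : S_G3) (sa : S_SA) (fr : S_FR) (sf : S_SF)
    (bj : S_BJ) : S_BD := by
  intro e he
  choose c hc using bd_enum
  let B : ℕ → ℕ → Ms := fun k m => Vs (c k m).1 (c k m).2
  refine (((FW.ev_fun (π := pp) (fun _ => Ob.m2 B)).and
    (Ev.all (ι := ℕ) fun k => FW.ev_fun (π := pp) (fun _ => Ob.m1 (B k)))).and
    (((Ev.all (ι := Node) fun b => FW.ev_fun (π := pp) (fun _ => Ob.bn (fun _ => b))).and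
    (g2.and g3)).and ((sa e).and ((fr e).and ((sf e).and (bj e he)))))).mono ?_
  rintro M G ⟨⟨h1, h2⟩, ⟨h3, ⟨h4, h5⟩, h6⟩, h7, h8, h9, h10⟩
  have hb : ∀ k, bad e M G k = Set.range fun m => Zs e false M G (B k m) := by
    intro k
    ext A
    constructor
    · rintro ⟨i, b, hi, hb, rfl⟩
      have h : ((i, b) : ℕ × Node) ∈ bd_I k := ⟨hi, hb⟩
      rw [hc k] at h
      obtain ⟨m, hm⟩ := h
      exact ⟨m, by simp only [B, hm]⟩
    · rintro ⟨m, rfl⟩
      have h : c k m ∈ bd_I k := by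
        rw [hc k]
        exact Set.mem_range_self m
      exact ⟨(c k m).1, (c k m).2, h.1, h.2, rfl⟩
  have hB : Ob.m2 B ∈ M := h1 [] (by simp)
  have hBk : ∀ k, Ob.m1 (B k) ∈ M := fun k => h2 k [] (by simp)
  refine ⟨?_, fun k => ⟨?_, ?_, ?_, ?_⟩⟩
  · have h := h9 false B hB
    have hb' : bad e M G = fun n => Set.range fun m => Zs e false M G (B n m) := funext hb
    rw [hb']
    exact h
  · refine bd_tau he h4 h5 (fun b => ?_) k
    exact h6 (fun _ => b) (h3 b [] (by simp))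
  · rw [hb k]
    exact h8 false (B k) (hBk k)
  · exact ⟨_, (h7 false).2 (B k) (hBk k), (hb k).subset⟩
  · rintro A ⟨i, b, _, _, rfl⟩
    exact h10 false i b

end Pool.Agent.HM
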