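import Pool.Agent.Lib.MP_d80832_gt.Mod.Stm

set_option autoImplicit false

/-!
# MP_d80832_gt : the space embeds in the line
-/

namespace Pool.Agent.HM

open Pool.Agent.Lib.MP_d80832_gt

private lemma em_perfect : Perfect (Set.univ : Set ℝ) := by
  refine ⟨isClosed_univ, ?_⟩
  intro x _
  rw [accPt_iff_frequently]
  rw [Filter.frequently_iff]
  intro U hU
  obtain ⟨ε, hε, hU'⟩ := Metric.mem_nhds_iff.1 hU
  refine ⟨x + ε / 2, hU' ?_, ?_, Set.mem_univ _⟩
  · rw [Metric.mem_ball, Real.dist_eq]
    have : x + ε / 2 - x = ε / 2 := by ring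
    rw [this, abs_of_pos (by linarith)]
    linarith
  · intro h
    linarith

theorem p_EM : S_EM := by
  classical
  obtain ⟨j, -, hjc, hji⟩ := em_perfect.exists_nat_bool_injection ⟨0, Set.mem_univ _⟩
  have : Nonempty (Encodable Node) := ⟨Encodable.ofCountable Node⟩
  obtain ⟨enc⟩ := this
  let F : Pt → (ℕ → Bool) := fun x k =>
    decide (enc.encode (x k.unpair.1) = k.unpair.2)
  have hFc : Continuous F := by
    refine continuous_pi fun k => ?_
    have h1 : Continuous (fun x : Pt => x k.unpair.1) := continuous_apply _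
    exact (continuous_of_discreteTopology
      (f := fun c : Node => decide (enc.encode c = k.unpair.2))).comp h1
  have hF : ∀ (x : Pt) (i : ℕ) (c : Node), F x (Nat.pair i (enc.encode c)) = true ↔ x i = c := by
    intro x i c
    simp only [F, Nat.unpair_pair, decide_eq_true_eq]
    exact enc.encode_injective.eq_iff
  have hFi : Function.Injective F := by
    intro x y hxy
    funext i
    have h1 := (hF x i (y i))
    rw [hxy, hF y i (y i)] at h1
    exact h1.1 rfl
  have hemb : Topology.IsClosedEmbedding j := hjc.isClosedEmbedding hji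
  refine ⟨j ∘ F, hjc.comp hFc, hji.comp hFi, ?_⟩
  intro i c
  have hopen : IsOpen {f : ℕ → Bool | f (Nat.pair i (enc.encode c)) = true} := by
    have h1 : Continuous (fun f : ℕ → Bool => f (Nat.pair i (enc.encode c))) := continuous_apply _
    exact (isOpen_discrete ({true} : Set Bool)).preimage h1
  obtain ⟨O, hO, hOe⟩ := hemb.isInducing.isOpen_iff.1 hopen
  refine ⟨O, hO, fun x => ?_⟩
  have h2 : F x ∈ j ⁻¹' O ↔ F x ∈ {f : ℕ → Bool | f (Nat.pair i (enc.encode c)) = true} := by
    rw [hOe]
  exact h2.trans (hF x i c)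

end Pool.Agent.HM
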