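import Pool.Agent.Lib.MP_d80832_gt.Mod.Stm

set_option autoImplicit false

namespace Pool.Agent.HM

open Pool.Agent.Lib.MP_d80832_gt

theorem p_MO : S_MO := by
  intro p q h
  have hA : q.A ⊆ p.A := by
    rintro x (hx | hx)
    · by_cases hx' : x ∈ p.X
      · exact Or.inl hx'
      · exact Or.inr (h.2.2.2.1 x hx hx')
    · exact Or.inr (star_mono h.2.2.1 hx)
  refine ⟨hA, ?_, ?_, ?_⟩
  · intro B hB j m
    rcases hB j m with h1 | ⟨y, hy, h1⟩
    · exact Or.inl fun y hy => h1 y (hA hy)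
    · exact Or.inr ⟨y, h.1 hy, h1⟩
  · rintro B ⟨f, hf⟩
    exact ⟨f, fun y hy => hf y (hA hy)⟩
  · rintro B (⟨x, hx, y, hy, h1⟩ | h1)
    · exact Or.inl ⟨x, h.1 hx, y, h.1 hy, h1⟩
    · refine Or.inr fun y hy => ?_
      obtain ⟨x, hx, h2⟩ := h1 y (hA hy)
      exact ⟨x, h.1 hx, h2⟩

end Pool.Agent.HM
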