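import Pool.Agent.Lib.MP_d80832_gt.Mod.Stm

set_option autoImplicit false

/-!
# MP_d80832_gt : sequences of the model with values given by names
-/

namespace Pool.Agent.HM

open Pool.Agent.Lib.MP_d80832_gt
open Pool.Agent.CR (V Nm nat natN Memf Memf_mono)
open Pool.Agent.FW (Ev ev_rel ev_fun ev_dense ev_mem ev_natN ev_opN ev_dir)

/-- the relation which is decided -/
private def sq_R {ι : Type} (ob : ι → Ob) (a : ι → Nm Cn) (K : ℕ → ι → Prop)
    (l : List Ob) (n : ℕ) (x : Ob) (p : Cn) : Prop :=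
  ∃ τ, l = [Ob.nm τ] ∧
    ((∃ i, x = ob i ∧ K n i ∧ Memf (FW.opN (natN Cn n) (a i)) τ p) ∨
      (x = Ob.no ∧ ∀ i, K n i → ∀ r ≤ p, ¬ Memf (FW.opN (natN Cn n) (a i)) τ r))

theorem p_SQ (ge : S_GE) : S_SQ := by
  classical
  intro ι ob hinj hno a K
  have hR : ∀ l n x p q, q ≤ p → sq_R ob a K l n x p → sq_R ob a K l n x q := by
    rintro l n x p q hq ⟨τ, hl, ⟨i, h1, h2, h3⟩ | ⟨h1, h2⟩⟩
    · exact ⟨τ, hl, Or.inl ⟨i, h1, h2, Memf_mono h3 hq⟩⟩
    · exact ⟨τ, hl, Or.inr ⟨h1, fun i hi r hr => h2 i hi r (hr.trans hq)⟩⟩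
  refine ((ge (sq_R ob a K) hR).and ((Ev.all (ι := ℕ) fun n => ev_dense (π := pp)
    (fun l => {q | ∃ x, sq_R ob a K l n x q})).and
    ((Ev.all (ι := ℕ) fun n => ev_rel (π := pp) (fun l x => ∃ F : ℕ → Ob, l = [Ob.sq F] ∧ x = F n)).and
    ((ev_rel (π := pp) (fun l x => ∃ i, l = [ob i] ∧ x = Ob.nm (a i))).and
    (ev_mem.and (ev_natN.and (ev_opN.and ev_dir))))))).mono ?_
  rintro M G ⟨h1, h2, h3, h4, h5, h6, h7, h8⟩ w ⟨τ, hτ, rfl⟩
  have hτ' : Ob.nm τ ∈ M := hτ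
  have hl : ∀ x ∈ [Ob.nm τ], x ∈ M := by simpa using hτ'
  have ha : ∀ i, ob i ∈ M → a i ∈ pp.H M := by
    intro i hi
    obtain ⟨x, hx, j, hj, rfl⟩ := h4 [ob i] (by simpa using hi) ⟨_, i, rfl, rfl⟩
    have : i = j := hinj (by simpa using hj)
    subst this
    exact hx
  have hpair : ∀ n i, ob i ∈ M → FW.opN (natN Cn n) (a i) ∈ pp.H M ∧
      pp.vl M G (FW.opN (natN Cn n) (a i)) = ZFSet.pair (nat n) (pp.vl M G (a i)) := by
    intro n i hi
    obtain ⟨h9, h10⟩ := h7 _ (h6 n).1 _ (ha i hi)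
    exact ⟨h9, by rw [h10, (h6 n).2]⟩
  obtain ⟨F', hF', p, hp, hFp⟩ := h1 [Ob.nm τ] hl (fun n => by
    obtain ⟨s, hs, x, hx⟩ := h2 n [Ob.nm τ] hl (fun p => by
      by_cases h : ∃ i, K n i ∧ ∃ r ≤ p, Memf (FW.opN (natN Cn n) (a i)) τ r
      · obtain ⟨i, hi, r, hr, hm⟩ := h
        exact ⟨r, hr, ob i, τ, rfl, Or.inl ⟨i, rfl, hi, hm⟩⟩
      · exact ⟨p, le_rfl, Ob.no, τ, rfl, Or.inr ⟨rfl, fun i hi r hr hm =>
          h ⟨i, hi, r, hr, hm⟩⟩⟩)
    exact ⟨x, s, hs, hx⟩)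
  have hFM : ∀ n, F' n ∈ M := by
    intro n
    obtain ⟨x, hx, F, hF, rfl⟩ := h3 n [Ob.sq F'] (by simpa using hF') ⟨_, F', rfl, rfl⟩
    have : F' = F := by simpa using hF
    subst this
    exact hx
  let F : ℕ → Option ι := fun n => if h : ∃ i, F' n = ob i then some h.choose else none
  have hF1 : ∀ n i, F n = some i → F' n = ob i := by
    intro n i h
    by_cases hi : ∃ i, F' n = ob i
    · have h9 : F n = some hi.choose := dif_pos hi
      rw [h9] at h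
      have h10 : hi.choose = i := by simpa using h
      rw [← h10]
      exact hi.choose_spec
    · have h9 : F n = none := dif_neg hi
      rw [h9] at h
      exact absurd h (by simp)
  have hF2 : ∀ n, F n = none → F' n = Ob.no := by
    intro n h
    by_cases hi : ∃ i, F' n = ob i
    · have h9 : F n = some hi.choose := dif_pos hi
      rw [h9] at h
      exact absurd h (by simp)
    · obtain ⟨σ, _, ⟨i, h10, _⟩ | ⟨h10, _⟩⟩ := hFp n
      · exact absurd ⟨i, h10⟩ hi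
      · exact h10
  have hF3 : (fun n => (F n).elim Ob.no ob) = F' := by
    funext n
    rcases h : F n with _ | i
    · exact (hF2 n h).symm
    · exact (hF1 n i h).symm
  refine ⟨F, by rw [hF3]; exact hF', fun n => ⟨fun i hi => ?_, fun hn i hi hK hw => ?_⟩⟩
  · have h9 := hF1 n i hi
    have hiM : ob i ∈ M := h9 ▸ hFM n
    obtain ⟨σ, h10, ⟨j, h11, h12, h13⟩ | ⟨h11, _⟩⟩ := hFp n
    · have hσ : τ = σ := by simpa using h10
      subst hσ
      have hij : i = j := hinj (h9.symm.trans h11)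
      subst hij
      refine ⟨hiM, h12, ?_⟩
      rw [← (hpair n i hiM).2]
      exact (h5 _ (hpair n i hiM).1 _ hτ).2 ⟨p, hp, h13⟩
    · exact absurd (h9.symm.trans h11) (hno i)
  · have h9 := hF2 n hn
    obtain ⟨σ, h10, ⟨j, h11, _, _⟩ | ⟨_, h12⟩⟩ := hFp n
    · exact absurd (h11.symm.trans h9) (hno j)
    · have hσ : τ = σ := by simpa using h10
      subst hσ
      rw [← (hpair n i hi).2] at hw
      obtain ⟨p', hp', hm⟩ := (h5 _ (hpair n i hi).1 _ hτ).1 hw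
      obtain ⟨r, _, hr1, hr2⟩ := h8 p hp p' hp'
      exact h12 i hK r hr1 (Memf_mono hm hr2)

end Pool.Agent.HM
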